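import Pool.Agent.Helper9.MC.Hcnt

/-!
MP_4042d8_co: every 3-hub of an optimal colouring with `j = 1` gives a final colouring,
for an arbitrary simple cubic graph.
-/

set_option autoImplicit false
set_option linter.unusedSectionVars false
set_option linter.unusedSimpArgs false
set_option linter.unusedVariables false

namespace Pool.Agent.Helper9.MC

open Pool.Agent.Helper27.MC hiding Fr T1 ter
open Pool.Agent.Helper51.MC Pool.Agent.Helper88.MC Pool.Agent.Helper64.MC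
open Pool.Agent.Helper35.MC Pool.Agent.Helper91.MC

variable {V : Type} [Fintype V] [DecidableEq V] {G : SimpleGraph V} [DecidableRel G.Adj]

section

variable {c : V → Bool} {a s1 s2 s3 v1 v2 v3 p1 p2 p3 : V}

theorem hub_va (hm : ∀ v, mu G c v ≤ 1) (H : Hub3 G c a s1 s2 s3 v1 v2 v3 p1 p2 p3) :
    ¬ G.Adj v1 a ∧ v1 ≠ s1 ∧ v1 ≠ s2 ∧ v1 ≠ s3 := by
  have r1 := sv_rm H.h1
  have e1 : v1 ≠ s1 := r1.ne.symm
  have e2 : v1 ≠ s2 := fun h => H.n12 (h ▸ r1)
  have e3 : v1 ≠ s3 := fun h => H.n13 (h ▸ r1)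
  refine ⟨fun h => ?_, e1, e2, e3⟩
  rcases (H.av.n3.nb v1).1 h.symm with h | h | h
  exacts [e1 h, e2 h, e3 h]

/-- every 3-hub is good -/
theorem hub_all (hH : ST_H3) (hF : ST_FCNT) (hG : G.IsRegularOfDegree 3) (hO : Opt G c 1)
    (H : Hub3 G c a s1 s2 s3 v1 v2 v3 p1 p2 p3) : Good G := by
  have hm := hO.mu1
  obtain ⟨⟨q1, q2, q3⟩, d12, d13, d23⟩ := hH V G hG c 1 le_rfl hO a s1 s2 s3 v1 v2 v3 p1 p2 p3 H
  have H' := mir_hub H
  have hO' := mir_opt hH hG hO H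
  have hm' := hO'.mu1
  obtain ⟨va1, vs11, vs12, vs13⟩ := hub_va hm H
  obtain ⟨va2, vs22, vs21, vs23⟩ := hub_va hm (hub_p12 H)
  obtain ⟨pa1, ps11, ps12, ps13⟩ := hub_va hm' H'
  have v1A : tA G (mir c a s1 s2 s3) v1 :=
    (hH V G hG _ 1 le_rfl hO' _ _ _ _ _ _ _ _ _ _ H').1.1
  rcases hub_cls hH hG hO H with hg | hα | hβ
  · exact hg
  all_goals rcases hub_cls hH hG hO' H' with hg | hα' | hβ'
  · exact hg
  · -- (alpha, alpha'')
    obtain ⟨-, ⟨y, y', hy, ay, ay', -, -⟩, -⟩ := hα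
    obtain ⟨⟨e, f, he, ae, af, n2, n3⟩, -, -⟩ := hα'
    have key : ∀ w, G.Adj p1 w → tA G (mir c a s1 s2 s3) w → ∀ z, Rm G c w z → z = s1 := by
      intro w hw hw' z hz
      rcases mir_A hm H hw' with h | h | h | h | h
      · exact absurd hz (nomate h.2 z)
      · exact absurd (h ▸ hw) pa1
      · rw [h] at hz
        exact rm_uniq (hm v1) hz (sv_rm H.h1).symm
      · exact absurd (h ▸ hw) n2
      · exact absurd (h ▸ hw) n3
    have S : Slot G c s1 v1 p1 a e f :=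
      ⟨H.h1.cs, H.h1.cm, q1.1, H.av.ca, q1.2, av_mu H.av, H.h1.n3.yz.symm,
        fun w => (H.h1.n3.nb w).trans (by constructor <;> rintro (h | h | h) <;> simp [h]),
        he.n3.nb, he.n3.yz, he.n3.xy.symm, he.n3.xz.symm⟩
    have fr : v2 ∈ Fr G c := (sv_Fr hm hy).2 ⟨ay, ay'⟩
    have dv : v2 ≠ v1 := by
      intro h
      have := sv_rm H.h2
      rw [h] at this
      exact H.av.n3.xy (rm_uniq (hm v1) (sv_rm H.h1).symm this.symm)
    exact good_one hO (st_PA V G hG c hm s1 v1 p1 a e f v2 S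
      (key e ((he.n3.nb e).2 (by simp)) ae) (key f ((he.n3.nb f).2 (by simp)) af) fr vs21 dv va2)
  · -- (alpha, beta'')
    obtain ⟨⟨e, f, he, ae, af, n2, n3⟩, -, -⟩ := hα
    have np1 : ¬ G.Adj v1 p1 := by
      intro h
      obtain ⟨⟨e', f', he', te, tf, -⟩, -, -⟩ := hβ'
      have k : ∀ w, tQ G (mir c a s1 s2 s3) w → v1 ≠ w := by
        rintro w hw rfl
        exact tA_not_tQ v1A hw
      rcases (he'.n3.nb v1).1 h.symm with h | h | h
      exacts [vs11 h, k _ te h, k _ tf h]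
    have key : ∀ w, G.Adj v1 w → tA G c w → tB G (mir c a s1 s2 s3) w := by
      intro w hw aw
      refine (far_ty H (far_A H aw ?_ ?_ ?_ ?_)).2.2.2.2 aw
      · rintro rfl; exact va1 hw
      · rintro rfl; exact np1 hw
      · rintro rfl; exact n2 hw
      · rintro rfl; exact n3 hw
    exact hub_K hH hF hG hO' H' hβ'.1 hβ'.2.1 hβ'.2.2 he.n3 (key e ((he.n3.nb e).2 (by simp)) ae)
      (key f ((he.n3.nb f).2 (by simp)) af)
  · exact hg
  · -- (beta, alpha'')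
    obtain ⟨⟨e, f, he, ae, af, n2, n3⟩, -, -⟩ := hα'
    have np1 : ¬ G.Adj p1 v1 := by
      intro h
      obtain ⟨⟨e', f', he', te, tf, -⟩, -, -⟩ := hβ
      rcases (he'.n3.nb p1).1 h.symm with h | h | h
      · exact ne_tf q1.1 H.h1.cs h
      · exact ne_AQ q1.2 te.2 h
      · exact ne_AQ q1.2 tf.2 h
    have key : ∀ w, G.Adj p1 w → tA G (mir c a s1 s2 s3) w → tB G c w := by
      intro w hw hw'
      rcases mir_A hm H hw' with h | h | h | h | h
      · exact h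
      · exact absurd (h ▸ hw) pa1
      · exact absurd (h ▸ hw) np1
      · exact absurd (h ▸ hw) n2
      · exact absurd (h ▸ hw) n3
    exact hub_K hH hF hG hO H hβ.1 hβ.2.1 hβ.2.2 he.n3 (key e ((he.n3.nb e).2 (by simp)) ae)
      (key f ((he.n3.nb f).2 (by simp)) af)
  · -- (beta, beta'')
    obtain ⟨⟨g, g', hgg, tg, tg', ngg⟩, -, -⟩ := hβ'
    obtain ⟨sg, fg⟩ := mir_Q hH hG hO H tg
    obtain ⟨sg', fg'⟩ := mir_Q hH hG hO H tg'
    have ag : G.Adj g p1 := ((hgg.n3.nb g).2 (by simp)).symm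
    have ag' : G.Adj g' p1 := ((hgg.n3.nb g').2 (by simp)).symm
    obtain ⟨m, h, hs⟩ := sv_ex hG sg ag q1.1
    obtain ⟨m', h', hs'⟩ := sv_ex hG sg' ag' q1.1
    have r1 := sv_rm H.h1
    have H1 : Hub3 G c p1 s1 g g' v1 m m' a h h' := by
      refine ⟨⟨q1.1, H.h1.cs, sg.1, sg'.1, hgg.n3⟩, sv_swap H.h1, hs, hs', ?_, ?_, ?_⟩
      · intro k
        obtain ⟨-, -, -, -, k5, -⟩ := fg
        exact k5 (rm_uniq (hm s1) k r1)
      · intro k
        obtain ⟨-, -, -, -, k5, -⟩ := fg'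
        exact k5 (rm_uniq (hm s1) k r1)
      · intro k
        exact ngg ((far_rm H fg g').2 k)
    rcases hub_cls hH hG hO H1 with hg | hα1 | hβ1
    · exact hg
    · exfalso
      obtain ⟨⟨e, f, he, ae, af, -, -⟩, -, -⟩ := hα1
      obtain ⟨⟨e', f', he', te, tf, -⟩, -, -⟩ := hβ
      have h1 := (sv_Fr hm he).2 ⟨ae, af⟩
      have h2 := (sv_Dd hm he').2 ⟨te, tf⟩
      have h3 := (mem_Fr.1 h1).2
      have h4 := (mem_Dd.1 h2).2
      omega
    · exfalso
      obtain ⟨-, ⟨e, f, he, te, tf, nef⟩, -⟩ := hβ1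
      have rg := sv_rm hs
      have tm : tS G c m := sv_tSm hm hs
      have r2 := sv_rm H.h2
      have r3 := sv_rm H.h3
      obtain ⟨-, k1, k2, k3, k4, k5, k6, -⟩ := fg
      have n1 : m ≠ s1 := by rintro rfl; exact k4 (rm_uniq (hm m) rg.symm r1)
      have n2 : m ≠ s2 := by rintro rfl; exact k5 (rm_uniq (hm m) rg.symm r2)
      have n3 : m ≠ s3 := by rintro rfl; exact k6 (rm_uniq (hm m) rg.symm r3)
      have n4 : m ≠ v1 := by rintro rfl; exact k1 (rm_uniq (hm m) rg.symm r1.symm)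
      have n5 : m ≠ v2 := by rintro rfl; exact k2 (rm_uniq (hm m) rg.symm r2.symm)
      have n6 : m ≠ v3 := by rintro rfl; exact k3 (rm_uniq (hm m) rg.symm r3.symm)
      exact nef (hub_T hH hG hO H tm n1 n2 n3 n4 n5 n6 ((he.n3.nb e).2 (by simp))
        ((he.n3.nb f).2 (by simp)) te (Or.inl tf) he.n3.yz)

end

end Pool.Agent.Helper9.MC
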