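import Pool.Agent.Helper33.MC.StG

/-!
MP_4042d8_co, section D, part II: row G_W (weight at the other neighbours of a bare neighbour).
-/

set_option autoImplicit false
set_option linter.unusedSectionVars false
set_option linter.unusedSimpArgs false
set_option linter.unusedVariables false

namespace Pool.Agent.Helper9.MC.GW

open Pool.Agent.Helper27.MC hiding Fr T1 ter
open Pool.Agent.Helper51.MC Pool.Agent.Helper88.MC Pool.Agent.Helper64.MC
open Pool.Agent.Helper91.MC
open Pool.Agent.Helper33.MC (Clr Live Avl Bare LS NS FxG Q0G ST_GW)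
open Pool.Agent.Helper79.MC (Sqg)
open Pool.Agent.Helper91.MC.GK (Khb)

variable {V : Type} [Fintype V] [DecidableEq V] {G : SimpleGraph V} [DecidableRel G.Adj]
  {c : V → Bool} {j : ℕ} {L : V → V → Prop} {H : Finset V}

theorem tB_true {w x : V} (hw : tB G c w) (h : G.Adj w x) : c x = true := by
  by_contra hc
  have h1 : c x = false := by simpa using hc
  exact nomate hw.2 x ⟨h, h1.trans hw.1.symm⟩

section facts

variable (F : FxG G c j L)
include F

theorem mate {s m a b y : V} (h : Sv G c s m a b) (hy : Rm G c s y) : y = m :=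
  rm_uniq (F.mu1 s) hy (sv_rm h)

/-- the square at an `A`-vertex with two free neighbours which are not mates, with prescribed data
of the first one -/
theorem sq_of {s1 s2 a b v1 : V} (h1 : Sv G c s1 v1 a b) (hs1 : s1 ∈ Fr G c) (hs2 : s2 ∈ Fr G c)
    (hne : s1 ≠ s2) (hv : s2 ≠ v1) (h : G.Adj a s2) (ha : tA G c a) :
    ∃ v2 za zb, Sqg G c s1 s2 a b v1 v2 za zb := by
  obtain ⟨b', v1', v2, za, zb, hq⟩ := F.g1 a s1 s2 ha hs1 hs2 hne
    (fun hr => hv (mate F h1 hr)) ((h1.n3.nb a).2 (by tauto)).symm h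
  have e1 : v1' = v1 := mate F h1 (sv_rm hq.h1)
  have e2 : b' = b := by
    rcases (h1.n3.nb b').1 ((hq.h1.n3.nb b').2 (by tauto)) with h3 | h3 | h3
    · have h4 := hq.tb.1
      rw [h3, h1.cm] at h4
      cases h4
    · exact (hq.h1.n3.yz h3.symm).elim
    · exact h3
  subst e1 e2
  exact ⟨v2, za, zb, hq⟩

/-- a vertex of type `B` is adjacent to at most one hub of a square -/
theorem sq_w {s1 s2 a b v1 v2 za zb w : V} (h : Sqg G c s1 s2 a b v1 v2 za zb) (hw : tB G c w)
    (ha : G.Adj a w) (hb : G.Adj b w) : False := by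
  have n1 : w ≠ s1 := by
    rintro rfl
    have h1 := hw.2
    have h2 := (sv_tS F.mu1 h.h1).2
    omega
  have n2 : w ≠ s2 := by
    rintro rfl
    have h1 := hw.2
    have h2 := (sv_tS F.mu1 h.h2).2
    omega
  rcases (h.ha.n3.nb w).1 ha with h1 | h1 | h1
  · exact n1 h1
  · exact n2 h1
  rcases (h.hb.n3.nb w).1 hb with h2 | h2 | h2
  · exact n1 h2
  · exact n2 h2
  exact h.zab (h1.symm.trans h2)

/-- if `w` in `B` is adjacent to both `A`-neighbours of `u`, no free vertex except `u` and its mate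
is adjacent to one of them -/
theorem no_other {u v a b w g : V} (hs : Sv G c u v a b) (hu : u ∈ Fr G c) (hw : tB G c w)
    (haw : G.Adj a w) (hbw : G.Adj b w) (hg : g ∈ Fr G c) (hgu : g ≠ u) (hgv : g ≠ v) :
    ¬ G.Adj a g := by
  intro h
  have ha := ((sv_Fr F.mu1 hs).1 hu).1
  obtain ⟨v2, w1, w2, hq⟩ := sq_of F hs hu hg hgu.symm hgv h ha
  exact sq_w F hq hw haw hbw

/-- a vertex of type `A` has at most two free neighbours -/
theorem two_fr {x : V} (hx : tA G c x) :
    ∃ f1 f2, ∀ f, f ∈ Fr G c → G.Adj f x → f = f1 ∨ f = f2 := by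
  obtain ⟨y1, y2, y3, h12, h13, h23, nb⟩ := nb_three G F.reg x
  obtain ⟨y, z, hav⟩ := av_ex F.reg hx ((nb y1).2 (by tauto))
  by_cases k1 : y1 ∈ Fr G c
  · by_cases k2 : y ∈ Fr G c
    · refine ⟨y1, y, fun f hf h => ?_⟩
      rcases (hav.n3.nb f).1 h.symm with e | e | e
      · exact Or.inl e
      · exact Or.inr e
      · exact (F.g2 x y1 y z hav hx k1 k2 (e ▸ hf)).elim
    · refine ⟨y1, z, fun f hf h => ?_⟩
      rcases (hav.n3.nb f).1 h.symm with e | e | e
      · exact Or.inl e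
      · exact (k2 (e ▸ hf)).elim
      · exact Or.inr e
  · refine ⟨y, z, fun f hf h => ?_⟩
    rcases (hav.n3.nb f).1 h.symm with e | e | e
    · exact (k1 (e ▸ hf)).elim
    · exact Or.inl e
    · exact Or.inr e

theorem one_slot (x : V) (h : ¬ ∃ f f', f ≠ f' ∧ LS G c H f x ∧ LS G c H f' x) :
    ∃ f0, ∀ f, LS G c H f x → f = f0 := by
  by_cases h1 : ∃ f, LS G c H f x
  · obtain ⟨f0, h0⟩ := h1
    refine ⟨f0, fun f hf => ?_⟩
    by_contra hne
    exact h ⟨f, f0, hne, hf, h0⟩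
  · exact ⟨x, fun f hf => (h1 ⟨f, hf⟩).elim⟩

/-- the branch at a vertex of type `Q` is unique -/
theorem br_uniq {f v x y t t' q q' k k' f2 v2 x2 y2 t2 t2' q2 q2' k2' : V}
    (K : Khb G c f v x y t t' q q' k k')
    (K2 : Khb G c f2 v2 x2 y2 t2 t2' q2 q2' k k2') : t2 = t := by
  by_contra hne
  have hq : q2 = q := rm_uniq (F.mu1 k) K2.q1.symm K.q1.symm
  subst hq
  have tq : tQ G c q2 := ⟨K.h1.cb, mu_of_rm F.mu1 K.q1⟩
  have a1 : G.Adj q2 t := ((K.h1.n3.nb q2).2 (by tauto)).symm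
  have a2 : G.Adj q2 t2 := ((K2.h1.n3.nb q2).2 (by tauto)).symm
  have hr := F.f1 q2 t t2 tq (sv_tS F.mu1 K.h1) (sv_tS F.mu1 K2.h1) a1 a2 (Ne.symm hne)
  have e := mate F K.h1 hr
  subst e
  rcases (K.h2.n3.nb q2).1 a2.symm with h | h | h
  · exact a1.ne h
  · have h1 := tq.2
    rw [h] at h1
    have h2 := K.ta.2
    omega
  · exact (F.g3 f v x y t t2 q2 q' k k' K).1 h

theorem one_br (k : V) :
    ∃ t0, ∀ t f v x y t' q q' k', Khb G c f v x y t t' q q' k k' → t = t0 := by
  by_cases h : ∃ t f v x y t' q q' k', Khb G c f v x y t t' q q' k k'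
  · obtain ⟨t0, f0, v0, x0, y0, t0', q0, q0', k0', K0⟩ := h
    exact ⟨t0, fun t f v x y t' q q' k' K => br_uniq F K0 K⟩
  · exact ⟨k, fun t f v x y t' q q' k' K => (h ⟨t, f, v, x, y, t', q, q', k', K⟩).elim⟩

omit F in
theorem kh_k (hm : ∀ v, mu G c v ≤ 1) {f v x y t t' q q' k k' : V}
    (K : Khb G c f v x y t t' q q' k k') : tQ G c k :=
  ⟨K.q1.2.trans K.h1.cb, mu_of_rm hm K.q1.symm⟩

/-- two free vertices at a hub which are mates, with a third neighbour in `B`: an `N''`-slot -/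
theorem q0 {x f f' w : V} (hf : LS G c H f x) (hf' : LS G c H f' x) (hr : Rm G c f f')
    (hw : tB G c w) (hxw : G.Adj x w) : Q0G G c H :=
  ⟨f, f', x, w, hf, hr, ⟨hf'.1, hf'.2.2.2.1⟩, hf'.2.2.1.symm, hxw, hw⟩

/-- two live slots at `x ~ w`, `w` in `B`, no `N''`-slot: a square hub -/
theorem hub2 (hQ : ¬ Q0G G c H) {x f f' w : V} (hne : f ≠ f') (hf : LS G c H f x)
    (hf' : LS G c H f' x) (hw : tB G c w) (hxw : G.Adj x w) :
    ∃ y m m' w', Sqg G c f f' x y m m' w w' := by
  by_cases hr : Rm G c f f'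
  · exact (hQ (q0 F hf hf' hr hw hxw)).elim
  · obtain ⟨y, m, m', za, zb, hq⟩ := F.g1 x f f' hf.2.1 hf.1 hf'.1 hne hr hf.2.2.1.symm
      hf'.2.2.1.symm
    have e : za = w := by
      rcases (hq.ha.n3.nb w).1 hxw with h | h | h
      · have h1 := hw.2
        have h2 := (mem_Fr.1 hf.1).1.2
        rw [← h] at h2
        omega
      · have h1 := hw.2
        have h2 := (mem_Fr.1 hf'.1).1.2
        rw [← h] at h2
        omega
      · exact h.symm
    subst e
    exact ⟨y, m, m', zb, hq⟩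

end facts

/-- the conclusion of row G_W for `w` of type `B` -/
def Cn (G : SimpleGraph V) [DecidableRel G.Adj] (c : V → Bool) (H : Finset V) (u v a w : V) : Prop :=
  ∃ (LA : Finset (V × V)) (LQ : Finset V),
    (∀ f x, LS G c H f x → G.Adj x w → x ≠ a → f ≠ u → f ≠ v → (f, x) ∈ LA) ∧
    (∀ t f v' x y t' q q' k k', Khb G c f v' x y t t' q q' k k' → LS G c H f x →
      Clr G H k → G.Adj k w → f ≠ u → f ≠ v → t ∈ LQ) ∧
    (2 * LA.card + LQ.card ≤ 4 ∨ (2 * LA.card + LQ.card ≤ 5 ∧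
      (tB G c w ∧ ∃ s1 s2 n n' v1 v2 zb v' x y t t' q q' k k',
        Sqg G c s1 s2 n n' v1 v2 w zb ∧ LS G c H s1 n ∧ LS G c H s2 n ∧ n ≠ a ∧
        Khb G c v1 v' x y t t' q q' k k' ∧ LS G c H v1 x ∧ Clr G H k ∧ G.Adj k w)))

section W

variable (F : FxG G c j L)
include F

/-- one hub with two slots (a square hub), the other neighbour of `w` of type `A` -/
theorem key_A {u v a b w x1 x2 f f' m m' y w' : V} (hl : LS G c H u a) (hs : Sv G c u v a b)
    (hw : tB G c w) (haw : G.Adj a w) (hn : N3 G w x1 a x2)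
    (hq : Sqg G c f f' x1 y m m' w w') (hf : LS G c H f x1) (hf' : LS G c H f' x1)
    (t2 : tA G c x2) : Cn G c H u v a w := by
  classical
  have ta := hl.2.1
  have hua : G.Adj u a := hl.2.2.1
  have hx1w : G.Adj x1 w := ((hn.nb x1).2 (by tauto)).symm
  have hx2w : G.Adj x2 w := ((hn.nb x2).2 (by tauto)).symm
  have nax2 : x2 ≠ a := hn.yz.symm
  have only : ∀ f f' m m' : V, Sqg G c f f' x1 y m m' w w' → ∀ g, LS G c H g x1 →
      g = f ∨ g = f' := by
    intro f f' m m' hq g hg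
    rcases (hq.ha.n3.nb g).1 hg.2.2.1.symm with h | h | h
    · exact Or.inl h
    · exact Or.inr h
    · have h1 := hw.2
      have h2 := (mem_Fr.1 hg.1).1.2
      rw [h] at h2
      omega
  have noQ : ∀ t f v' x y t' q q' k k', Khb G c f v' x y t t' q q' k k' → LS G c H f x →
      Clr G H k → G.Adj k w → f ≠ u → f ≠ v → t ∈ (∅ : Finset V) := by
    intro t f v' x y t' q q' k k' K _ _ hkw _ _
    have hk := kh_k F.mu1 K
    rcases (hn.nb k).1 hkw.symm with h | h | h
    · exact (tA_not_tQ hf.2.1 (h ▸ hk)).elim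
    · exact (tA_not_tQ ta (h ▸ hk)).elim
    · exact (tA_not_tQ t2 (h ▸ hk)).elim
  have aux : ∀ g, g ∈ Fr G c → g ≠ u → g ≠ v → G.Adj g x2 → ¬ G.Adj g a := by
    intro g hg hgu hgv h1 h2
    obtain ⟨v2, w1, w2, hq2⟩ := sq_of F hs hl.1 hg hgu.symm hgv h2.symm ta
    have h3 : x2 = b := by
      rcases (hq2.h2.n3.nb x2).1 h1 with h4 | h4 | h4
      · have h5 := t2.1
        rw [h4, hq2.h2.cm] at h5
        cases h5
      · exact (nax2 h4).elim
      · exact h4
    subst h3
    exact sq_w F hq2 hw haw hx2w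
  have key : ∀ f f' m m' : V, Sqg G c f f' x1 y m m' w w' → u = m → Cn G c H u v a w := by
    intro f f' m m' hq hum
    have at1 := only f f' m m' hq
    have e : f = v := mate F hs (by rw [hum]; exact (sv_rm hq.h1).symm)
    refine ⟨{(f', x1), (m', x2)}, ∅, fun g x hg hxw hxa hgu hgv => ?_, noQ, Or.inl ?_⟩
    · rcases (hn.nb x).1 hxw.symm with h | h | h
      · subst h
        rcases at1 g hg with h1 | h1
        · exact (hgv (h1.trans e)).elim
        · subst h1
          simp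
      · exact (hxa h).elim
      · subst h
        by_cases hgm : g = m'
        · subst hgm
          simp
        · exact (aux g hg.1 hgu hgv hg.2.2.1 (F.r3 f f' x1 y m m' w w' x a g hq
            ⟨fun z => (hn.nb z).trans (by tauto), hn.xz, hn.xy, hn.yz.symm⟩ hw t2 ta hg.1
            (hum ▸ hgu) hgm hg.2.2.1)).elim
    · have := Finset.card_le_two (a := (f', x1)) (b := (m', x2))
      simp only [Finset.card_empty]
      omega
  by_cases h1 : u = m
  · exact key f f' m m' hq h1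
  · by_cases h2 : u = m'
    · exact key f' f m' m hq.swap h2
    · have at1 := only f f' m m' hq
      have h3 : G.Adj u x2 := F.r3 f f' x1 y m m' w w' a x2 u hq hn hw ta t2 hl.1 h1 h2 hua
      have h4 : x2 = b := by
        rcases (hs.n3.nb x2).1 h3 with h5 | h5 | h5
        · have h6 := t2.1
          rw [h5, hs.cm] at h6
          cases h6
        · exact (nax2 h5).elim
        · exact h5
      subst h4
      refine ⟨{(f, x1), (f', x1)}, ∅, fun g x hg hxw hxa hgu hgv => ?_, noQ, Or.inl ?_⟩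
      · rcases (hn.nb x).1 hxw.symm with h | h | h
        · subst h
          rcases at1 g hg with h5 | h5 <;> subst h5 <;> simp
        · exact (hxa h).elim
        · subst h
          exact (no_other F (sv_swap hs) hl.1 hw hx2w haw hg.1 hgu hgv hg.2.2.1.symm).elim
      · have := Finset.card_le_two (a := (f, x1)) (b := (f', x1))
        simp only [Finset.card_empty]
        omega

/-- one hub with two slots (a square hub), the other neighbour of `w` of type `Q` -/
theorem key_Q {u v a b w x1 x2 f f' m m' y w' : V} (hl : LS G c H u a) (hs : Sv G c u v a b)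
    (hw : tB G c w) (haw : G.Adj a w) (hn : N3 G w x1 a x2)
    (hq : Sqg G c f f' x1 y m m' w w') (hf : LS G c H f x1) (hf' : LS G c H f' x1)
    (t2 : tQ G c x2) : Cn G c H u v a w := by
  classical
  have ta := hl.2.1
  have hua : G.Adj u a := hl.2.2.1
  have only : ∀ g, LS G c H g x1 → g = f ∨ g = f' := by
    intro g hg
    rcases (hq.ha.n3.nb g).1 hg.2.2.1.symm with h | h | h
    · exact Or.inl h
    · exact Or.inr h
    · have h1 := hw.2
      have h2 := (mem_Fr.1 hg.1).1.2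
      rw [h] at h2
      omega
  have hA : ∀ g x, LS G c H g x → G.Adj x w → x ≠ a → g ≠ u → g ≠ v →
      (g, x) ∈ ({(f, x1), (f', x1)} : Finset (V × V)) := by
    intro g x hg hxw hxa hgu hgv
    rcases (hn.nb x).1 hxw.symm with h | h | h
    · subst h
      rcases only g hg with h5 | h5 <;> subst h5 <;> simp
    · exact (hxa h).elim
    · exact (tA_not_tQ (h ▸ hg.2.1) t2).elim
  have hc2 := Finset.card_le_two (a := (f, x1)) (b := (f', x1))
  by_cases hbr : ∃ t f v' x y t' q q' k', Khb G c f v' x y t t' q q' x2 k' ∧ LS G c H f x ∧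
      Clr G H x2 ∧ f ≠ u ∧ f ≠ v
  · obtain ⟨t, g, v', x, y', t', q, q', k', K, hg, hk, hgu, hgv⟩ := hbr
    have hx2w : G.Adj x2 w := ((hn.nb x2).2 (by tauto)).symm
    refine ⟨{(f, x1), (f', x1)}, {t}, hA, ?_, Or.inr ⟨by simp only [Finset.card_singleton]; omega,
      hw, ?_⟩⟩
    · intro t2 f2 v2 x2' y2 t2' q2 q2' k2 k2' K2 _ _ hkw _ _
      have hkQ := kh_k F.mu1 K2
      rcases (hn.nb k2).1 hkw.symm with h | h | h
      · exact (tA_not_tQ hf.2.1 (h ▸ hkQ)).elim
      · exact (tA_not_tQ ta (h ▸ hkQ)).elim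
      · subst h
        rw [br_uniq F K K2]
        simp
    · -- `g` is the mate of `f` or of `f'`
      have hgm : g = m ∨ g = m' := by
        by_contra hcon
        push Not at hcon
        have hga : G.Adj g a := F.r5 f f' x1 y m m' w w' g v' x y' t t' q q' x2 k' a hq K
          ⟨fun z => (hn.nb z).trans (by tauto), hn.xz, hn.xy, hn.yz.symm⟩ hw ta hcon.1 hcon.2
        obtain ⟨v2, z1, z2, hq2⟩ := sq_of F hs hl.1 hg.1 hgu.symm hgv hga.symm ta
        have hT : ∀ s, s = t ∨ s = t' → s ≠ u := by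
          have hn1 : t ∉ Fr G c := fun h => tA_not_tQ ((sv_Fr F.mu1 K.h1).1 h).2
            ⟨K.h1.cb, mu_of_rm F.mu1 K.q1⟩
          have hn2 : t' ∉ Fr G c := fun h => tA_not_tQ ((sv_Fr F.mu1 K.h2).1 h).2
            ⟨K.h2.cb, mu_of_rm F.mu1 K.q2⟩
          rintro s (rfl | rfl) rfl
          · exact hn1 hl.1
          · exact hn2 hl.1
        have hxu : G.Adj x u → False := by
          intro h
          rcases (K.ha.n3.nb u).1 h with e | e | e
          · exact hgu e.symm
          · exact hT u (Or.inl e) rfl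
          · exact hT u (Or.inr e) rfl
        rcases (hq2.h2.n3.nb x).1 hg.2.2.1 with e | e | e
        · have h5 := hg.2.1.1
          rw [e, hq2.h2.cm] at h5
          cases h5
        · exact hxu (e ▸ hua.symm)
        · exact hxu (e ▸ ((hs.n3.nb b).2 (by tauto)).symm)
      rcases hgm with rfl | rfl
      · exact ⟨f, f', x1, y, g, m', w', v', x, y', t, t', q, q', x2, k', hq, hf, hf', hn.xy, K, hg,
          hk, hx2w⟩
      · exact ⟨f', f, x1, y, g, m, w', v', x, y', t, t', q, q', x2, k', hq.swap, hf', hf, hn.xy, K,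
          hg, hk, hx2w⟩
  · refine ⟨{(f, x1), (f', x1)}, ∅, hA, ?_, Or.inl (by simp only [Finset.card_empty]; omega)⟩
    intro t3 f2 v2 x2' y2 t2' q2 q2' k2 k2' K2 hl2 hc hkw h1 h2
    have hkQ := kh_k F.mu1 K2
    rcases (hn.nb k2).1 hkw.symm with h | h | h
    · exact (tA_not_tQ hf.2.1 (h ▸ hkQ)).elim
    · exact (tA_not_tQ ta (h ▸ hkQ)).elim
    · subst h
      exact (hbr ⟨t3, f2, v2, x2', y2, t2', q2, q2', k2', K2, hl2, hc, h1, h2⟩).elim

/-- all cases, `w` of type `B`, no `N''`-slot -/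
theorem cn_B (hQ : ¬ Q0G G c H) {u v a b w : V} (hl : LS G c H u a) (hs : Sv G c u v a b)
    (hw : tB G c w) (haw : G.Adj a w) : Cn G c H u v a w := by
  classical
  have ta := hl.2.1
  obtain ⟨x, y, z, hxy, hxz, hyz, nb⟩ := nb_three G F.reg w
  obtain ⟨x1, x2, hn⟩ : ∃ x1 x2, N3 G w x1 a x2 := by
    rcases (nb a).1 haw.symm with h | h | h
    · exact ⟨y, z, fun t => (nb t).trans (by rw [h]; tauto), h ▸ hxy.symm, hyz, h ▸ hxz⟩
    · exact ⟨x, z, fun t => (nb t).trans (by rw [h]), h ▸ hxy, hxz, h ▸ hyz⟩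
    · exact ⟨x, y, fun t => (nb t).trans (by rw [h]; tauto), h ▸ hxz, hxy, h ▸ hyz.symm⟩
  have main : ∀ x1 x2, N3 G w x1 a x2 → (∃ f f', f ≠ f' ∧ LS G c H f x1 ∧ LS G c H f' x1) →
      Cn G c H u v a w := by
    rintro x1 x2 hn ⟨f, f', hne, hf, hf'⟩
    obtain ⟨y, m, m', w', hq⟩ := hub2 F hQ hne hf hf' hw ((hn.nb x1).2 (by tauto)).symm
    have cx2 : c x2 = true := tB_true hw ((hn.nb x2).2 (by tauto))
    rcases tA_or_tQ F.mu1 cx2 with h2 | h2
    · exact key_A F hl hs hw haw hn hq hf hf' h2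
    · exact key_Q F hl hs hw haw hn hq hf hf' h2
  by_cases h1 : ∃ f f', f ≠ f' ∧ LS G c H f x1 ∧ LS G c H f' x1
  · exact main x1 x2 hn h1
  · by_cases h2 : ∃ f f', f ≠ f' ∧ LS G c H f x2 ∧ LS G c H f' x2
    · exact main x2 x1 ⟨fun t => (hn.nb t).trans (by tauto), hn.yz.symm, hn.xz.symm,
        hn.xy.symm⟩ h2
    · obtain ⟨f1, hf1⟩ := one_slot F x1 h1
      obtain ⟨f2, hf2⟩ := one_slot F x2 h2
      have pc : ∀ x, (∃ f0, ∀ f, LS G c H f x → f = f0) →
          ∃ (LA : Finset (V × V)) (LQ : Finset V), 2 * LA.card + LQ.card ≤ 2 ∧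
          (∀ f, LS G c H f x → (f, x) ∈ LA) ∧
          (∀ t f v' x' y t' q q' k', Khb G c f v' x' y t t' q q' x k' → t ∈ LQ) := by
        rintro x ⟨f0, hf0⟩
        by_cases hx : tA G c x
        · refine ⟨{(f0, x)}, ∅, by simp, fun f hf' => ?_, fun t f v' x' y t' q q' k' K => ?_⟩
          · rw [hf0 f hf']
            simp
          · exact (tA_not_tQ hx (kh_k F.mu1 K)).elim
        · obtain ⟨t0, ht⟩ := one_br F x
          exact ⟨∅, {t0}, by simp, fun f hf => (hx hf.2.1).elim,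
            fun t f v' x' y t' q q' k' K => by rw [ht t f v' x' y t' q q' k' K]; simp⟩
      obtain ⟨A1, Q1, b1, hA1, hQ1⟩ := pc x1 ⟨f1, hf1⟩
      obtain ⟨A2, Q2, b2, hA2, hQ2⟩ := pc x2 ⟨f2, hf2⟩
      refine ⟨A1 ∪ A2, Q1 ∪ Q2, ?_, ?_, Or.inl ?_⟩
      · intro g x hg hxw hxa _ _
        rcases (hn.nb x).1 hxw.symm with h | h | h
        · subst h
          exact Finset.mem_union_left _ (hA1 g hg)
        · exact (hxa h).elim
        · subst h
          exact Finset.mem_union_right _ (hA2 g hg)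
      · intro t f v' x y t' q q' k k' K _ _ hkw _ _
        rcases (hn.nb k).1 hkw.symm with h | h | h
        · subst h
          exact Finset.mem_union_left _ (hQ1 t f v' x y t' q q' k' K)
        · exact (tA_not_tQ ta (h ▸ kh_k F.mu1 K)).elim
        · subst h
          exact Finset.mem_union_right _ (hQ2 t f v' x y t' q q' k' K)
      · have k1 := Finset.card_union_le A1 A2
        have k2 := Finset.card_union_le Q1 Q2
        omega

/-- `w` of type `S` -/
theorem cn_S {u v a w : V} (ta : tA G c a) (hw : tS G c w) (haw : G.Adj a w) :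
    Cn G c H u v a w := by
  classical
  obtain ⟨m, x, hsw⟩ := sv_ex F.reg hw haw.symm ta.1
  have nb : ∀ z, G.Adj z w → c z = true → z = a ∨ z = x := by
    intro z hz cz
    rcases (hsw.n3.nb z).1 hz.symm with h | h | h
    · rw [h, hsw.cm] at cz
      cases cz
    · exact Or.inl h
    · exact Or.inr h
  rcases tA_or_tQ F.mu1 hsw.cb with hx | hx
  · obtain ⟨f1, f2, hf⟩ := two_fr F hx
    refine ⟨{(f1, x), (f2, x)}, ∅, ?_, ?_, Or.inl ?_⟩
    · intro g y hg hyw hya _ _
      rcases nb y hyw hg.2.1.1 with h | h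
      · exact (hya h).elim
      · subst h
        rcases hf g hg.1 hg.2.2.1 with e | e <;> subst e <;> simp
    · intro t f v' x' y t' q q' k k' K _ _ hkw _ _
      have hkQ := kh_k F.mu1 K
      rcases nb k hkw hkQ.1 with h | h
      · exact (tA_not_tQ ta (h ▸ hkQ)).elim
      · exact (tA_not_tQ hx (h ▸ hkQ)).elim
    · have := Finset.card_le_two (a := (f1, x)) (b := (f2, x))
      simp only [Finset.card_empty]
      omega
  · obtain ⟨t0, ht⟩ := one_br F x
    refine ⟨∅, {t0}, ?_, ?_, Or.inl (by simp)⟩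
    · intro g y hg hyw hya _ _
      rcases nb y hyw hg.2.1.1 with h | h
      · exact (hya h).elim
      · exact (tA_not_tQ (h ▸ hg.2.1) hx).elim
    · intro t f v' x' y t' q q' k k' K _ _ hkw _ _
      have hkQ := kh_k F.mu1 K
      rcases nb k hkw hkQ.1 with h | h
      · exact (tA_not_tQ ta (h ▸ hkQ)).elim
      · subst h
        rw [ht t f v' x' y t' q q' k' K]
        simp

/-- the general bound `8`, `w` of type `B` -/
theorem cn_8 {u v a w : V} (ta : tA G c a) (hw : tB G c w) (haw : G.Adj a w) :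
    ∃ (LA : Finset (V × V)) (LQ : Finset V), 2 * LA.card + LQ.card ≤ 8 ∧
      (∀ f x, LS G c H f x → G.Adj x w → x ≠ a → f ≠ u → f ≠ v → (f, x) ∈ LA) ∧
      (∀ t f v' x y t' q q' k k', Khb G c f v' x y t t' q q' k k' → LS G c H f x →
        Clr G H k → G.Adj k w → f ≠ u → f ≠ v → t ∈ LQ) := by
  classical
  obtain ⟨x, y, z, hxy, hxz, hyz, nb⟩ := nb_three G F.reg w
  obtain ⟨x1, x2, hn⟩ : ∃ x1 x2, N3 G w x1 a x2 := by
    rcases (nb a).1 haw.symm with h | h | h
    · exact ⟨y, z, fun t => (nb t).trans (by rw [h]; tauto), h ▸ hxy.symm, hyz, h ▸ hxz⟩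
    · exact ⟨x, z, fun t => (nb t).trans (by rw [h]), h ▸ hxy, hxz, h ▸ hyz⟩
    · exact ⟨x, y, fun t => (nb t).trans (by rw [h]; tauto), h ▸ hxz, hxy, h ▸ hyz.symm⟩
  have pc : ∀ x, ∃ (LA : Finset (V × V)) (LQ : Finset V), 2 * LA.card + LQ.card ≤ 4 ∧
      (∀ f, LS G c H f x → (f, x) ∈ LA) ∧
      (∀ t f v' x' y t' q q' k', Khb G c f v' x' y t t' q q' x k' → t ∈ LQ) := by
    intro x
    by_cases hx : tA G c x
    · obtain ⟨f1, f2, hf⟩ := two_fr F hx
      refine ⟨{(f1, x), (f2, x)}, ∅, ?_, fun f hf' => ?_, fun t f v' x' y t' q q' k' K => ?_⟩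
      · have := Finset.card_le_two (a := (f1, x)) (b := (f2, x))
        simp only [Finset.card_empty]
        omega
      · rcases hf f hf'.1 hf'.2.2.1 with e | e <;> subst e <;> simp
      · exact (tA_not_tQ hx (kh_k F.mu1 K)).elim
    · obtain ⟨t0, ht⟩ := one_br F x
      exact ⟨∅, {t0}, by simp, fun f hf => (hx hf.2.1).elim, fun t f v' x' y t' q q' k' K => by
        rw [ht t f v' x' y t' q q' k' K]; simp⟩
  obtain ⟨A1, Q1, b1, hA1, hQ1⟩ := pc x1
  obtain ⟨A2, Q2, b2, hA2, hQ2⟩ := pc x2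
  refine ⟨A1 ∪ A2, Q1 ∪ Q2, ?_, ?_, ?_⟩
  · have k1 := Finset.card_union_le A1 A2
    have k2 := Finset.card_union_le Q1 Q2
    omega
  · intro g x hg hxw hxa _ _
    rcases (hn.nb x).1 hxw.symm with h | h | h
    · subst h
      exact Finset.mem_union_left _ (hA1 g hg)
    · exact (hxa h).elim
    · subst h
      exact Finset.mem_union_right _ (hA2 g hg)
  · intro t f v' x y t' q q' k k' K _ _ hkw _ _
    rcases (hn.nb k).1 hkw.symm with h | h | h
    · subst h
      exact Finset.mem_union_left _ (hQ1 t f v' x y t' q q' k' K)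
    · exact (tA_not_tQ ta (h ▸ kh_k F.mu1 K)).elim
    · subst h
      exact Finset.mem_union_right _ (hQ2 t f v' x y t' q q' k' K)

end W

/-- row G_W -/
theorem st_GW : ST_GW := by
  intro V _ _ G _ c j L H F u v a w hl huv haw hwu hb
  have ta := hl.2.1
  obtain ⟨v', b, hs⟩ := sv_ex F.reg (mem_Fr.1 hl.1).1 hl.2.2.1 ta.1
  have e := mate F hs huv
  subst e
  have cw : c w = false := false_of_A ta.1 ta.2 haw
  have fin : Cn G c H u v a w → ∃ (LA : Finset (V × V)) (LQ : Finset V),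
      2 * LA.card + LQ.card ≤ 8 ∧ (¬ Q0G G c H → 2 * LA.card + LQ.card ≤ 5) ∧
      (∀ f x, LS G c H f x → G.Adj x w → x ≠ a → f ≠ u → f ≠ v → (f, x) ∈ LA) ∧
      (∀ t f v' x y t' q q' k k', Khb G c f v' x y t t' q q' k k' → LS G c H f x →
        Clr G H k → G.Adj k w → f ≠ u → f ≠ v → t ∈ LQ) ∧
      (¬ Q0G G c H → 2 * LA.card + LQ.card ≤ 4 ∨
        (tB G c w ∧ ∃ s1 s2 n n' v1 v2 zb v' x y t t' q q' k k',
          Sqg G c s1 s2 n n' v1 v2 w zb ∧ LS G c H s1 n ∧ LS G c H s2 n ∧ n ≠ a ∧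
          Khb G c v1 v' x y t t' q q' k k' ∧ LS G c H v1 x ∧ Clr G H k ∧ G.Adj k w)) := by
    rintro ⟨LA, LQ, h1, h2, h3⟩
    refine ⟨LA, LQ, ?_, fun _ => ?_, h1, h2, fun _ => ?_⟩
    · rcases h3 with h3 | ⟨h3, -⟩ <;> omega
    · rcases h3 with h3 | ⟨h3, -⟩ <;> omega
    · exact h3.imp id fun h => h.2
  rcases tB_or_tS F.mu1 cw with hw | hw
  · by_cases hQ : Q0G G c H
    · obtain ⟨LA, LQ, h1, h2, h3⟩ := cn_8 F (H := H) (u := u) (v := v) ta hw haw
      exact ⟨LA, LQ, h1, fun h => (h hQ).elim, h2, h3, fun h => (h hQ).elim⟩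
    · exact fin (cn_B F hQ hl hs hw haw)
  · exact fin (cn_S F ta hw haw)

end Pool.Agent.Helper9.MC.GW
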