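import Pool.Agent.Helper64.MC.St1
import Pool.Agent.Helper35.MC.Ob

/-!
MP_4042d8_co: B11: at a 3-hub no mate `v1` is a Theta.
-/

set_option autoImplicit false
set_option linter.unusedSectionVars false
set_option linter.unusedSimpArgs false
set_option linter.unusedVariables false

namespace Pool.Agent.Helper9.MC

open Pool.Agent.Helper27.MC Pool.Agent.Helper51.MC Pool.Agent.Helper88.MC Pool.Agent.Helper64.MC
open Pool.Agent.Helper35.MC

variable {V : Type} [Fintype V] [DecidableEq V] {G : SimpleGraph V} [DecidableRel G.Adj]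

/-- B11 -/
theorem h3c (hG : G.IsRegularOfDegree 3) {c : V → Bool} {j : ℕ} (hj : 1 ≤ j) (hO : Opt G c j)
    {a s1 s2 s3 v1 v2 v3 p1 p2 p3 q r z : V}
    (H : Hub3 G c a s1 s2 s3 v1 v2 v3 p1 p2 p3) (hp2 : tA G c p2)
    (hp3 : tA G c p3) (d23 : p2 ≠ p3) (hv1 : Sv G c v1 s1 q r)
    (hr : Rm G c q r) (hnq : N3 G q r v1 z) (hz : tB G c z) : False := by
  have hm := hO.mu1
  obtain ⟨⟨ca, cs1, cs2, cs3, ⟨na, ns12, ns13, ns23⟩⟩, ⟨-, cv1, -, cp1, ⟨n1, e11, e12, e13⟩⟩,
    ⟨-, cv2, -, cp2, ⟨n2, e21, e22, e23⟩⟩, ⟨-, cv3, -, cp3, ⟨n3, e31, e32, e33⟩⟩, m12, m13, m23⟩ := H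
  obtain ⟨-, -, cq, cr, ⟨nv1, f1, f2, f3⟩⟩ := hv1
  obtain ⟨nq, k1, k2, k3⟩ := hnq
  obtain ⟨-, mp2⟩ := hp2
  obtain ⟨-, mp3⟩ := hp3
  obtain ⟨cz, mz⟩ := hz
  have hR : ∀ x y, Rm G c x y ↔ (G.Adj x y ∧ c y = c x) := fun _ _ => Iff.rfl
  have hsym : ∀ x y, G.Adj x y ↔ G.Adj y x := fun x y => G.adj_comm x y
  have hirr : ∀ x, ¬ G.Adj x x := fun x => G.loopless.irrefl x
  have hrm : ∀ x y, G.Adj x y → c x = c y → Rm G c x y := fun x y h e => ⟨h, e.symm⟩
  have r1 : Rm G c s1 v1 := hrm _ _ ((n1 v1).2 (Or.inl rfl)) (by rw [cs1, cv1])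
  have r2 : Rm G c s2 v2 := hrm _ _ ((n2 v2).2 (Or.inl rfl)) (by rw [cs2, cv2])
  have r3 : Rm G c s3 v3 := hrm _ _ ((n3 v3).2 (Or.inl rfl)) (by rw [cs3, cv3])
  have up2 : ∀ x, ¬ Rm G c p2 x := nomate mp2
  have up3 : ∀ x, ¬ Rm G c p3 x := nomate mp3
  have uz : ∀ x, ¬ Rm G c z x := nomate mz
  have uq : ∀ x, Rm G c q x ↔ x = r := fun x => ⟨fun h => rm_uniq (hm q) h hr, fun h => h ▸ hr⟩
  have ur : ∀ x, Rm G c r x ↔ x = q :=
    fun x => ⟨fun h => rm_uniq (hm r) h hr.symm, fun h => h ▸ hr.symm⟩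
  have us1 : ∀ x, Rm G c s1 x ↔ x = v1 := fun x => ⟨fun h => rm_uniq (hm s1) h r1, fun h => h ▸ r1⟩
  have us2 : ∀ x, Rm G c s2 x ↔ x = v2 := fun x => ⟨fun h => rm_uniq (hm s2) h r2, fun h => h ▸ r2⟩
  have us3 : ∀ x, Rm G c s3 x ↔ x = v3 := fun x => ⟨fun h => rm_uniq (hm s3) h r3, fun h => h ▸ r3⟩
  have uv1 : ∀ x, Rm G c v1 x ↔ x = s1 :=
    fun x => ⟨fun h => rm_uniq (hm v1) h r1.symm, fun h => h ▸ r1.symm⟩
  have ua : ∀ x, ¬ Rm G c a x := by
    intro x hx
    rw [hR, na] at hx
    grind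
  -- distinctness
  have x1 : v1 ≠ s2 := by rintro rfl; exact m12 r1
  have x2 : v1 ≠ s3 := by rintro rfl; exact m13 r1
  have qp2 : q ≠ p2 := by rintro rfl; exact up2 r hr
  have qp3 : q ≠ p3 := by rintro rfl; exact up3 r hr
  have qa : q ≠ a := by rintro rfl; exact ua r hr
  have rp2 : r ≠ p2 := by rintro rfl; exact up2 q hr.symm
  have rp3 : r ≠ p3 := by rintro rfl; exact up3 q hr.symm
  have ra : r ≠ a := by rintro rfl; exact ua q hr.symm
  have zs1 : z ≠ s1 := by rintro rfl; exact uz _ r1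
  have zs2 : z ≠ s2 := by rintro rfl; exact uz _ r2
  have zs3 : z ≠ s3 := by rintro rfl; exact uz _ r3
  have zv1 : z ≠ v1 := by rintro rfl; exact uz _ r1.symm
  have hX : ([a, s2, s3, v1, q] : List V).toFinset = {a, s2, s3, v1, q} := by simp
  have hnd : ([a, s2, s3, v1, q] : List V).Nodup := by
    simp only [List.nodup_cons, List.mem_cons, List.not_mem_nil, or_false, not_or,
      not_false_eq_true, List.nodup_nil, and_true]
    grind
  refine Pcrit hG hO [a, s2, s3, v1, q] hnd 1 (by simp [dl_cons, dl_nil, ca, cs2, cs3, cv1, cq])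
    (by norm_num) (by exact_mod_cast hj) ?_ ?_
  · have mm : ∀ x y, Rm G c x y → mu G c x = 1 := fun x y hxy => mu_of_rm hm hxy
    simp only [cl_cons, cl_nil, List.map_cons, List.map_nil, List.sum_cons, List.sum_nil,
      mm _ _ r2, mm _ _ r3, mm _ _ r1.symm, mm _ _ hr]
    have g1 : sf G c a s2 = 1 := sf_adj ((na s2).2 (by simp)) (by rw [ca, cs2]; decide)
    have g2 : sf G c a s3 = 1 := sf_adj ((na s3).2 (by simp)) (by rw [ca, cs3]; decide)
    have g3 : 0 ≤ sf G c a v1 := sf_nrm (ua _)
    have g4 : 0 ≤ sf G c a q := sf_nrm (ua _)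
    have g5 : 0 ≤ sf G c s2 s3 := sf_nrm m23
    have g6 : 0 ≤ sf G c s2 v1 := sf_nrm (by rw [us2]; rintro rfl; exact ns12 ((uv1 _).1 r2.symm).symm)
    have g7 : 0 ≤ sf G c s3 v1 := sf_nrm (by rw [us3]; rintro rfl; exact ns13 ((uv1 _).1 r3.symm).symm)
    have g8 : 0 ≤ sf G c s2 q := sf_ge (by rw [cs2, cq]; decide)
    have g9 : 0 ≤ sf G c s3 q := sf_ge (by rw [cs3, cq]; decide)
    have g10 : sf G c v1 q = 1 := sf_adj ((nv1 q).2 (by simp)) (by rw [cv1, cq]; decide)
    have g11 : (0 : ℤ) ≤ (mu G c a : ℤ) := by positivity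
    push_cast
    linarith
  · rw [hX]
    intro w
    by_cases ya : w = a
    · subst ya
      refine mu_le_one (z := s1) ?_
      intro x
      rw [rm_in (by simp), hR]
      simp only [Finset.mem_insert, Finset.mem_singleton]
      grind
    by_cases ys2 : w = s2
    · subst ys2
      refine mu_le_one (z := p2) ?_
      intro x
      rw [rm_in (by simp), hR]
      simp only [Finset.mem_insert, Finset.mem_singleton]
      grind
    by_cases ys3 : w = s3
    · subst ys3
      refine mu_le_one (z := p3) ?_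
      intro x
      rw [rm_in (by simp), hR]
      simp only [Finset.mem_insert, Finset.mem_singleton]
      grind
    by_cases yv1 : w = v1
    · subst yv1
      refine mu_le_one (z := r) ?_
      intro x
      rw [rm_in (by simp), hR]
      simp only [Finset.mem_insert, Finset.mem_singleton]
      grind
    by_cases yq : w = q
    · subst yq
      refine mu_le_one (z := z) ?_
      intro x
      rw [rm_in (by simp), hR]
      simp only [Finset.mem_insert, Finset.mem_singleton]
      grind
    have yX : w ∉ ({a, s2, s3, v1, q} : Finset V) := by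
      simp only [Finset.mem_insert, Finset.mem_singleton]; grind
    by_cases ys1 : w = s1
    · subst ys1
      refine mu_le_one (z := a) ?_
      intro x
      rw [rm_out yX, hR]
      simp only [Finset.mem_insert, Finset.mem_singleton]
      grind
    by_cases yp2 : w = p2
    · subst yp2
      refine mu_le_one (z := s2) ?_
      intro x
      rw [rm_out yX]
      simp only [Finset.mem_insert, Finset.mem_singleton]
      grind
    by_cases yp3 : w = p3
    · subst yp3
      refine mu_le_one (z := s3) ?_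
      intro x
      rw [rm_out yX]
      simp only [Finset.mem_insert, Finset.mem_singleton]
      grind
    by_cases yr : w = r
    · subst yr
      refine mu_le_one (z := v1) ?_
      intro x
      rw [rm_out yX]
      simp only [Finset.mem_insert, Finset.mem_singleton]
      grind
    by_cases yz : w = z
    · subst yz
      refine mu_le_one (z := q) ?_
      intro x
      rw [rm_out yX]
      simp only [Finset.mem_insert, Finset.mem_singleton]
      grind
    refine out_le hm yX ?_
    simp only [Finset.mem_insert, Finset.mem_singleton]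
    intro x hx hyx
    have hxy := (hsym w x).1 hyx
    rcases hx with rfl | rfl | rfl | rfl | rfl
    · rcases (na w).1 hxy with h | h | h
      · exact absurd h ys1
      · exact absurd h ys2
      · exact absurd h ys3
    · rcases (n2 w).1 hxy with h | h | h
      · rw [h, cs2, cv2]
      · exact absurd h ya
      · exact absurd h yp2
    · rcases (n3 w).1 hxy with h | h | h
      · rw [h, cs3, cv3]
      · exact absurd h ya
      · exact absurd h yp3
    · rcases (nv1 w).1 hxy with h | h | h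
      · exact absurd h ys1
      · exact absurd h yq
      · exact absurd h yr
    · rcases (nq w).1 hxy with h | h | h
      · exact absurd h yr
      · exact absurd h yv1
      · exact absurd h yz

end Pool.Agent.Helper9.MC
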