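import Pool.Agent.Helper64.MC.St1
import Pool.Agent.Helper35.MC.Ob

/-!
MP_4042d8_co: unit B13: a 3-hub with `v1` in `D` (not a Theta) and `v2` free.
-/

set_option autoImplicit false
set_option linter.unusedSectionVars false
set_option linter.unusedSimpArgs false
set_option linter.unusedVariables false

namespace Pool.Agent.Helper9.MC

open Pool.Agent.Helper27.MC Pool.Agent.Helper51.MC Pool.Agent.Helper88.MC Pool.Agent.Helper64.MC
open Pool.Agent.Helper35.MC

variable {V : Type} [Fintype V] [DecidableEq V] {G : SimpleGraph V} [DecidableRel G.Adj]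

/-- unit B13 -/
theorem h3u {c : V → Bool} (hm : ∀ v, mu G c v ≤ 1) {a s1 s2 s3 v1 v2 v3 p1 p2 p3 q q' z r y y' : V}
    (H : Hub3 G c a s1 s2 s3 v1 v2 v3 p1 p2 p3) (hp1 : tA G c p1) (hp2 : tA G c p2)
    (hp3 : tA G c p3) (d13 : p1 ≠ p3) (hv1 : Sv G c v1 s1 q q') (hq : tQ G c q)
    (hr : Rm G c q r) (hr1 : ¬ G.Adj r v1) (hnq : N3 G q r v1 z) (hz : tB G c z)
    (hv2 : Sv G c v2 s2 y y') (hy : tA G c y) (hy' : tA G c y') (h1 : ¬ G.Adj v2 p1)
    (h3 : ¬ G.Adj v2 p3) : Blk G c {a, s1, s3, v2, q} Finset.univ := by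
  obtain ⟨⟨ca, cs1, cs2, cs3, ⟨na, ns12, ns13, ns23⟩⟩, ⟨-, cv1, -, cp1, ⟨n1, e11, e12, e13⟩⟩,
    ⟨-, cv2, -, cp2, ⟨n2, e21, e22, e23⟩⟩, ⟨-, cv3, -, cp3, ⟨n3, e31, e32, e33⟩⟩, m12, m13, m23⟩ := H
  obtain ⟨-, -, cq, cq', ⟨nv1, f1, f2, f3⟩⟩ := hv1
  obtain ⟨-, -, cy, cy', ⟨nv2, g1, g2, g3⟩⟩ := hv2
  obtain ⟨nq, k1, k2, k3⟩ := hnq
  obtain ⟨-, mp1⟩ := hp1
  obtain ⟨-, mp2⟩ := hp2
  obtain ⟨-, mp3⟩ := hp3
  obtain ⟨-, my⟩ := hy
  obtain ⟨-, my'⟩ := hy'
  obtain ⟨cz, mz⟩ := hz
  have hR : ∀ x y, Rm G c x y ↔ (G.Adj x y ∧ c y = c x) := fun _ _ => Iff.rfl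
  have hsym : ∀ x y, G.Adj x y ↔ G.Adj y x := fun x y => G.adj_comm x y
  have hirr : ∀ x, ¬ G.Adj x x := fun x => G.loopless.irrefl x
  have cr : c r = true := by rw [hr.2, cq]
  have hrm : ∀ x y, G.Adj x y → c x = c y → Rm G c x y := fun x y h e => ⟨h, e.symm⟩
  have r1 : Rm G c s1 v1 := hrm _ _ ((n1 v1).2 (Or.inl rfl)) (by rw [cs1, cv1])
  have r2 : Rm G c s2 v2 := hrm _ _ ((n2 v2).2 (Or.inl rfl)) (by rw [cs2, cv2])
  have r3 : Rm G c s3 v3 := hrm _ _ ((n3 v3).2 (Or.inl rfl)) (by rw [cs3, cv3])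
  have up1 : ∀ x, ¬ Rm G c p1 x := nomate mp1
  have up2 : ∀ x, ¬ Rm G c p2 x := nomate mp2
  have up3 : ∀ x, ¬ Rm G c p3 x := nomate mp3
  have uy : ∀ x, ¬ Rm G c y x := nomate my
  have uy' : ∀ x, ¬ Rm G c y' x := nomate my'
  have uz : ∀ x, ¬ Rm G c z x := nomate mz
  have uq : ∀ x, Rm G c q x ↔ x = r := fun x => ⟨fun h => rm_uniq (hm q) h hr, fun h => h ▸ hr⟩
  have ur : ∀ x, Rm G c r x ↔ x = q :=
    fun x => ⟨fun h => rm_uniq (hm r) h hr.symm, fun h => h ▸ hr.symm⟩
  have us1 : ∀ x, Rm G c s1 x ↔ x = v1 := fun x => ⟨fun h => rm_uniq (hm s1) h r1, fun h => h ▸ r1⟩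
  have us2 : ∀ x, Rm G c s2 x ↔ x = v2 := fun x => ⟨fun h => rm_uniq (hm s2) h r2, fun h => h ▸ r2⟩
  have us3 : ∀ x, Rm G c s3 x ↔ x = v3 := fun x => ⟨fun h => rm_uniq (hm s3) h r3, fun h => h ▸ r3⟩
  have uv1 : ∀ x, Rm G c v1 x ↔ x = s1 :=
    fun x => ⟨fun h => rm_uniq (hm v1) h r1.symm, fun h => h ▸ r1.symm⟩
  have uv2 : ∀ x, Rm G c v2 x ↔ x = s2 :=
    fun x => ⟨fun h => rm_uniq (hm v2) h r2.symm, fun h => h ▸ r2.symm⟩
  have uv3 : ∀ x, Rm G c v3 x ↔ x = s3 :=
    fun x => ⟨fun h => rm_uniq (hm v3) h r3.symm, fun h => h ▸ r3.symm⟩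
  have ua : ∀ x, ¬ Rm G c a x := by
    intro x hx
    rw [hR, na] at hx
    grind
  -- distinctness
  have dv12 : v1 ≠ v2 := by rintro rfl; exact ns12 (rm_uniq (hm v1) r1.symm r2.symm)
  have dv13 : v1 ≠ v3 := by rintro rfl; exact ns13 (rm_uniq (hm v1) r1.symm r3.symm)
  have dv23 : v2 ≠ v3 := by rintro rfl; exact ns23 (rm_uniq (hm v2) r2.symm r3.symm)
  have x1 : v1 ≠ s2 := by rintro rfl; exact m12 r1
  have x2 : v1 ≠ s3 := by rintro rfl; exact m13 r1
  have x3 : v2 ≠ s1 := by rintro rfl; exact m12 r2.symm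
  have x4 : v2 ≠ s3 := by rintro rfl; exact m23 r2
  have x5 : v3 ≠ s1 := by rintro rfl; exact m13 r3.symm
  have x6 : v3 ≠ s2 := by rintro rfl; exact m23 r3.symm
  have qp1 : q ≠ p1 := by rintro rfl; exact up1 r hr
  have qp2 : q ≠ p2 := by rintro rfl; exact up2 r hr
  have qp3 : q ≠ p3 := by rintro rfl; exact up3 r hr
  have qy : q ≠ y := by rintro rfl; exact uy r hr
  have qy' : q ≠ y' := by rintro rfl; exact uy' r hr
  have qa : q ≠ a := by rintro rfl; exact ua r hr
  have rp1 : r ≠ p1 := by rintro rfl; exact up1 q hr.symm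
  have rp2 : r ≠ p2 := by rintro rfl; exact up2 q hr.symm
  have rp3 : r ≠ p3 := by rintro rfl; exact up3 q hr.symm
  have ry : r ≠ y := by rintro rfl; exact uy q hr.symm
  have ry' : r ≠ y' := by rintro rfl; exact uy' q hr.symm
  have ra : r ≠ a := by rintro rfl; exact ua q hr.symm
  have zs1 : z ≠ s1 := by rintro rfl; exact uz _ r1
  have zs2 : z ≠ s2 := by rintro rfl; exact uz _ r2
  have zs3 : z ≠ s3 := by rintro rfl; exact uz _ r3
  have zv1 : z ≠ v1 := by rintro rfl; exact uz _ r1.symm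
  have zv2 : z ≠ v2 := by rintro rfl; exact uz _ r2.symm
  have zv3 : z ≠ v3 := by rintro rfl; exact uz _ r3.symm
  have av2 : ¬ G.Adj v2 a := by rw [hsym, na]; grind
  have ya : y ≠ a := by rintro rfl; exact av2 ((nv2 y).2 (by simp))
  have ya' : y' ≠ a := by rintro rfl; exact av2 ((nv2 y').2 (by simp))
  have yp1 : y ≠ p1 := by rintro rfl; exact h1 ((nv2 y).2 (by simp))
  have yp1' : y' ≠ p1 := by rintro rfl; exact h1 ((nv2 y').2 (by simp))
  have yp3 : y ≠ p3 := by rintro rfl; exact h3 ((nv2 y).2 (by simp))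
  have yp3' : y' ≠ p3 := by rintro rfl; exact h3 ((nv2 y').2 (by simp))
  have dX : dd c ({a, s1, s3, v2, q} : Finset V) = 1 := by
    unfold dd
    rw [Finset.sum_insert (by simp only [Finset.mem_insert, Finset.mem_singleton]; grind),
      Finset.sum_insert (by simp only [Finset.mem_insert, Finset.mem_singleton]; grind),
      Finset.sum_insert (by simp only [Finset.mem_insert, Finset.mem_singleton]; grind),
      Finset.sum_insert (by simp only [Finset.mem_insert, Finset.mem_singleton]; grind),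
      Finset.sum_singleton]
    simp [ca, cs1, cs3, cv2, cq]
  have Xy : y ∉ ({a, s1, s3, v2, q} : Finset V) := by
    simp only [Finset.mem_insert, Finset.mem_singleton]; grind
  have Xy' : y' ∉ ({a, s1, s3, v2, q} : Finset V) := by
    simp only [Finset.mem_insert, Finset.mem_singleton]; grind
  have Xv1 : v1 ∉ ({a, s1, s3, v2, q} : Finset V) := by
    simp only [Finset.mem_insert, Finset.mem_singleton]; grind
  have Xz : z ∉ ({a, s1, s3, v2, q} : Finset V) := by
    simp only [Finset.mem_insert, Finset.mem_singleton]; grind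
  have Xs2 : s2 ∉ ({a, s1, s3, v2, q} : Finset V) := by
    simp only [Finset.mem_insert, Finset.mem_singleton]; grind
  have Ry : ∀ x, Rm G (flp c {a, s1, s3, v2, q}) y x ↔ x = v2 := by
    intro x
    rw [rm_out Xy]
    simp only [Finset.mem_insert, Finset.mem_singleton]
    grind
  have Ry' : ∀ x, Rm G (flp c {a, s1, s3, v2, q}) y' x ↔ x = v2 := by
    intro x
    rw [rm_out Xy']
    simp only [Finset.mem_insert, Finset.mem_singleton]
    grind
  have Rv2 : ∀ x, Rm G (flp c {a, s1, s3, v2, q}) v2 x ↔ x = y ∨ x = y' := by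
    intro x
    rw [rm_in (by simp), hR]
    simp only [Finset.mem_insert, Finset.mem_singleton]
    grind
  have Rv1 : ∀ x, Rm G (flp c {a, s1, s3, v2, q}) v1 x ↔ x = q := by
    intro x
    rw [rm_out Xv1, hR]
    simp only [Finset.mem_insert, Finset.mem_singleton]
    grind
  have Rz : ∀ x, Rm G (flp c {a, s1, s3, v2, q}) z x ↔ x = q := by
    intro x
    rw [rm_out Xz, hR]
    simp only [Finset.mem_insert, Finset.mem_singleton]
    grind
  have Rq : ∀ x, Rm G (flp c {a, s1, s3, v2, q}) q x ↔ x = v1 ∨ x = z := by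
    intro x
    rw [rm_in (by simp), hR]
    simp only [Finset.mem_insert, Finset.mem_singleton]
    grind
  have cy2 : flp c {a, s1, s3, v2, q} y = true := by rw [flp_not Xy, cy]
  have cv2' : flp c {a, s1, s3, v2, q} v1 = false := by rw [flp_not Xv1, cv1]
  refine Blk.of2 (Finset.subset_univ _) dX (comp3 g3 cy2 Ry Rv2 Ry')
    (comp3 k3 cv2' Rv1 Rq Rz) (fun _ => Finset.mem_univ _) (fun _ => Finset.mem_univ _) ?_
  intro w w1 w2
  have y1 : w ≠ y := w1 0
  have y2 : w ≠ v2 := w1 1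
  have y3 : w ≠ y' := w1 2
  have y4 : w ≠ v1 := w2 0
  have y5 : w ≠ q := w2 1
  have y6 : w ≠ z := w2 2
  by_cases ya : w = a
  · subst ya
    refine mu_le_one (z := s2) ?_
    intro x
    rw [rm_in (by simp), hR]
    simp only [Finset.mem_insert, Finset.mem_singleton]
    grind
  by_cases ys1 : w = s1
  · subst ys1
    refine mu_le_one (z := p1) ?_
    intro x
    rw [rm_in (by simp), hR]
    simp only [Finset.mem_insert, Finset.mem_singleton]
    grind
  by_cases ys3 : w = s3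
  · subst ys3
    refine mu_le_one (z := p3) ?_
    intro x
    rw [rm_in (by simp), hR]
    simp only [Finset.mem_insert, Finset.mem_singleton]
    grind
  have yX : w ∉ ({a, s1, s3, v2, q} : Finset V) := by
    simp only [Finset.mem_insert, Finset.mem_singleton]; grind
  by_cases yb : w = s2
  · subst yb
    refine mu_le_one (z := a) ?_
    intro x
    rw [rm_out yX, hR]
    simp only [Finset.mem_insert, Finset.mem_singleton]
    grind
  by_cases yp1 : w = p1
  · subst yp1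
    refine mu_le_one (z := s1) ?_
    intro x
    rw [rm_out yX]
    simp only [Finset.mem_insert, Finset.mem_singleton]
    grind
  by_cases yp3 : w = p3
  · subst yp3
    refine mu_le_one (z := s3) ?_
    intro x
    rw [rm_out yX]
    simp only [Finset.mem_insert, Finset.mem_singleton]
    grind
  refine out_le hm yX ?_
  simp only [Finset.mem_insert, Finset.mem_singleton]
  intro x hx hyx
  have hxy := (hsym w x).1 hyx
  rcases hx with rfl | rfl | rfl | rfl | rfl
  · rcases (na w).1 hxy with h | h | h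
    · exact absurd h ys1
    · exact absurd h yb
    · exact absurd h ys3
  · rcases (n1 w).1 hxy with h | h | h
    · exact absurd h y4
    · exact absurd h ya
    · exact absurd h yp1
  · rcases (n3 w).1 hxy with h | h | h
    · rw [h, cs3, cv3]
    · exact absurd h ya
    · exact absurd h yp3
  · rcases (nv2 w).1 hxy with h | h | h
    · exact absurd h yb
    · exact absurd h y1
    · exact absurd h y3
  · rcases (nq w).1 hxy with h | h | h
    · rw [h, cq, cr]
    · exact absurd h y4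
    · exact absurd h y6

end Pool.Agent.Helper9.MC
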