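import Pool.Agent.Helper9.MC.Mir
import Pool.Agent.Helper9.MC.H3U
import Pool.Agent.Helper9.MC.H3C
import Pool.Agent.Helper91.MC.ONE
import Pool.Agent.Helper91.MC.SVX
import Pool.Agent.Helper78.MC.CC
import Pool.Agent.Helper42.MC.ZERO
import Pool.Agent.Helper20.MC.SW

/-!
MP_4042d8_co: classification of the 3-hubs (`j = 1`), property (T).
-/

set_option autoImplicit false
set_option linter.unusedSectionVars false
set_option linter.unusedSimpArgs false
set_option linter.unusedVariables false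

namespace Pool.Agent.Helper9.MC

open Pool.Agent.Helper27.MC Pool.Agent.Helper51.MC Pool.Agent.Helper88.MC Pool.Agent.Helper64.MC
open Pool.Agent.Helper35.MC Pool.Agent.Helper91.MC

variable {V : Type} [Fintype V] [DecidableEq V] {G : SimpleGraph V} [DecidableRel G.Adj]

/-- the data of an `S`-vertex -/
theorem sv_all (hG : G.IsRegularOfDegree 3) {c : V → Bool} {s m : V} (hs : tS G c s)
    (hm : ∀ v, mu G c v ≤ 1) (h : Rm G c s m) : ∃ a b, Sv G c s m a b := by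
  obtain ⟨m', a, b, nb, cm, ca, cb, hab, e1, e2⟩ := s_data hG hs
  have : m = m' := rm_uniq (hm s) h ⟨(nb m').2 (Or.inl rfl), by rw [cm, hs.1]⟩
  subst this
  exact ⟨a, b, hs.1, cm, ca, cb, nb, e1, e2, hab⟩

/-- the data of a `Q`-vertex with an `S`-neighbour `t` whose mate is not adjacent to it -/
theorem q_data (hG : G.IsRegularOfDegree 3) {c : V → Bool} {j : ℕ} (hj : 1 ≤ j) (hO : Opt G c j)
    {q t s : V} (hq : tQ G c q) (ht : Rm G c t s) (ct : c t = false) (h : G.Adj q t)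
    (hs : ¬ G.Adj q s) : ∃ r z, Rm G c q r ∧ N3 G q r t z ∧ tB G c z := by
  have hm := hO.mu1
  obtain ⟨m, a, b, h1, h2, h3, nb, cm, ca, cb⟩ := (NB V G hG c q).1 hq.2
  rw [hq.1] at cm ca cb
  have rq : Rm G c q m := ⟨(nb m).2 (Or.inl rfl), by rw [cm, hq.1]⟩
  have htS : tS G c t := ⟨ct, mu_of_rm hm ht⟩
  have key : ∀ z, G.Adj q z → c z = false → z ≠ t → tB G c z := by
    intro z hz cz hzt
    rcases tB_or_tS hm cz with h | h
    · exact h
    · exfalso
      have h4 := F1 hG hj hO hq htS h ‹G.Adj q t› hz hzt.symm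
      have : z = s := rm_uniq (hm t) h4 ht
      exact hs (this ▸ hz)
  rcases (nb t).1 h with e | e | e
  · rw [e, cm] at ct
    cases ct
  · subst e
    exact ⟨m, b, rq, ⟨nb, h1, h2, h3⟩, key b ((nb b).2 (by simp)) cb h3.symm⟩
  · subst e
    refine ⟨m, a, rq, ⟨fun w => (nb w).trans ?_, h2, h1, h3.symm⟩, key a ((nb a).2 (by simp)) ca h3⟩
    constructor <;> rintro (h | h | h) <;> simp [h]

variable (G) in
/-- `v` (mate `s`) is free, not adjacent to `p`, `p'` -/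
def Alf (c : V → Bool) (v s p p' : V) : Prop :=
  ∃ e f, Sv G c v s e f ∧ tA G c e ∧ tA G c f ∧ ¬ G.Adj v p ∧ ¬ G.Adj v p'

variable (G) in
/-- `v` (mate `s`) is in `D`, not a Theta -/
def Bet (c : V → Bool) (v s : V) : Prop :=
  ∃ e f, Sv G c v s e f ∧ tQ G c e ∧ tQ G c f ∧ ¬ Rm G c e f

section

variable {c : V → Bool} {a s1 s2 s3 v1 v2 v3 p1 p2 p3 : V}

/-- a mate which is in `T1` -/
theorem hub_T1 (hH : ST_H3) (hG : G.IsRegularOfDegree 3) (hO : Opt G c 1)
    (H : Hub3 G c a s1 s2 s3 v1 v2 v3 p1 p2 p3) {y q : V} (hv : Sv G c v1 s1 y q)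
    (hy : tA G c y) (hq : tQ G c q) : Good G := by
  have hm := hO.mu1
  obtain ⟨⟨q1, q2, q3⟩, d12, d13, d23⟩ := hH V G hG c 1 le_rfl hO a s1 s2 s3 v1 v2 v3 p1 p2 p3 H
  by_cases h : p2 = y
  · have h' : p3 ≠ y := fun e => d23 (h.trans e.symm)
    obtain ⟨T, hT⟩ := Pool.Agent.Helper78.MC.st_C1 V G hG c hm a s1 s3 s2 v1 v3 v2 p1 p3 p2 y q
      (hub_p23 H) q3 hv hy hq h'
    exact good_one hO hT
  · obtain ⟨T, hT⟩ := Pool.Agent.Helper78.MC.st_C1 V G hG c hm a s1 s2 s3 v1 v2 v3 p1 p2 p3 y q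
      H q2 hv hy hq h
    exact good_one hO hT

/-- the mate `v1` of a 3-hub -/
theorem hub_one (hH : ST_H3) (hG : G.IsRegularOfDegree 3) (hO : Opt G c 1)
    (H : Hub3 G c a s1 s2 s3 v1 v2 v3 p1 p2 p3) :
    Good G ∨ Alf G c v1 s1 p2 p3 ∨ Bet G c v1 s1 := by
  have hm := hO.mu1
  obtain ⟨⟨q1, q2, q3⟩, d12, d13, d23⟩ := hH V G hG c 1 le_rfl hO a s1 s2 s3 v1 v2 v3 p1 p2 p3 H
  have hv : tS G c v1 := sv_tSm hm H.h1
  obtain ⟨e, f, hs⟩ := sv_all hG hv hm (sv_rm H.h1).symm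
  have step2 : ∀ {p e' f' : V}, tA G c p → tA G c e' → tA G c f' → Sv G c v1 s1 e' f' →
      G.Adj v1 p → ∃ z, Sv G c v1 s1 p z ∧ tA G c z := by
    intro p e' f' hp he hf hs' h
    rcases (hs'.n3.nb p).1 h with h' | h' | h'
    · have := hp.1
      rw [h', H.h1.cs] at this
      cases this
    · subst h'
      exact ⟨f', hs', hf⟩
    · subst h'
      exact ⟨e', sv_swap hs', he⟩
  rcases tA_or_tQ hm hs.ca with he | he <;> rcases tA_or_tQ hm hs.cb with hf | hf
  · by_cases h2 : G.Adj v1 p2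
    · obtain ⟨z, hz, az⟩ := step2 q2 he hf hs h2
      obtain ⟨T, hT⟩ := Pool.Agent.Helper78.MC.st_C2 V G hG c hm a s1 s2 s3 v1 v2 v3 p1 p2 p3 z
        H hz q2 az
      exact Or.inl (good_one hO hT)
    · by_cases h3 : G.Adj v1 p3
      · obtain ⟨z, hz, az⟩ := step2 q3 he hf hs h3
        obtain ⟨T, hT⟩ := Pool.Agent.Helper78.MC.st_C2 V G hG c hm a s1 s3 s2 v1 v3 v2 p1 p3 p2 z
          (hub_p23 H) hz q3 az
        exact Or.inl (good_one hO hT)
      · exact Or.inr (Or.inl ⟨e, f, hs, he, hf, h2, h3⟩)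
  · exact Or.inl (hub_T1 hH hG hO H hs he hf)
  · exact Or.inl (hub_T1 hH hG hO H (sv_swap hs) hf he)
  · by_cases h : Rm G c e f
    · exfalso
      have hne : ¬ G.Adj e s1 := by
        intro h1
        rcases (H.h1.n3.nb e).1 h1.symm with h2 | h2 | h2
        · have := hs.ca
          rw [h2, H.h1.cm] at this
          cases this
        · have := he.2
          rw [h2, av_mu H.av] at this
          omega
        · have := he.2
          rw [h2, q1.2] at this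
          omega
      obtain ⟨r, z, h4, h5, h6⟩ := q_data hG le_rfl hO he (sv_rm H.h1).symm hv.1
        ((hs.n3.nb e).2 (by simp)).symm hne
      have : r = f := rm_uniq (hm e) h4 h
      subst this
      exact h3c hG le_rfl hO H q2 q3 d23 hs h4 h5 h6
    · exact Or.inr (Or.inr ⟨e, f, hs, he, hf, h⟩)

/-- mixed mates -/
theorem hub_mix (hH : ST_H3) (hG : G.IsRegularOfDegree 3) (hO : Opt G c 1)
    (H : Hub3 G c a s1 s2 s3 v1 v2 v3 p1 p2 p3) (h1 : Bet G c v1 s1) (h2 : Alf G c v2 s2 p1 p3) :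
    Good G := by
  have hm := hO.mu1
  obtain ⟨⟨q1, q2, q3⟩, d12, d13, d23⟩ := hH V G hG c 1 le_rfl hO a s1 s2 s3 v1 v2 v3 p1 p2 p3 H
  obtain ⟨e, f, hs, he, hf, hn⟩ := h1
  obtain ⟨y, y', hs', hy, hy', h3, h4⟩ := h2
  have hne : ¬ G.Adj e s1 := by
    intro h1
    rcases (H.h1.n3.nb e).1 h1.symm with h2 | h2 | h2
    · have := hs.ca
      rw [h2, H.h1.cm] at this
      cases this
    · have := he.2
      rw [h2, av_mu H.av] at this
      omega
    · have := he.2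
      rw [h2, q1.2] at this
      omega
  obtain ⟨r, z, h5, h6, h7⟩ := q_data hG le_rfl hO he (sv_rm H.h1).symm hs.cs
    ((hs.n3.nb e).2 (by simp)).symm hne
  have hr : ¬ G.Adj r v1 := by
    intro h8
    have cr : c r = true := by rw [h5.2, he.1]
    rcases (hs.n3.nb r).1 h8.symm with h9 | h9 | h9
    · rw [h9, H.h1.cs] at cr
      cases cr
    · exact h5.ne h9.symm
    · exact hn (h9 ▸ h5)
  exact good_one hO (h3u hm H q1 q2 q3 d13 hs he h5 hr h6 h7 hs' hy hy' h3 h4)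

/-- classification -/
theorem hub_cls (hH : ST_H3) (hG : G.IsRegularOfDegree 3) (hO : Opt G c 1)
    (H : Hub3 G c a s1 s2 s3 v1 v2 v3 p1 p2 p3) :
    Good G ∨ (Alf G c v1 s1 p2 p3 ∧ Alf G c v2 s2 p1 p3 ∧ Alf G c v3 s3 p1 p2) ∨
      (Bet G c v1 s1 ∧ Bet G c v2 s2 ∧ Bet G c v3 s3) := by
  have H2 := hub_p12 H
  have H3 := hub_p12 (hub_p23 H)
  have H23 := hub_p23 H
  have sw : ∀ {v s p p' : V}, Alf G c v s p p' → Alf G c v s p' p :=
    fun ⟨e, f, h1, h2, h3, h4, h5⟩ => ⟨e, f, h1, h2, h3, h5, h4⟩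
  rcases hub_one hH hG hO H with h | h1 | h1
  · exact Or.inl h
  · rcases hub_one hH hG hO H2 with h | h2 | h2
    · exact Or.inl h
    · rcases hub_one hH hG hO H3 with h | h3 | h3
      · exact Or.inl h
      · exact Or.inr (Or.inl ⟨h1, h2, h3⟩)
      · exact Or.inl (hub_mix hH hG hO H3 h3 (sw h1))
    · exact Or.inl (hub_mix hH hG hO H2 h2 h1)
  · rcases hub_one hH hG hO H2 with h | h2 | h2
    · exact Or.inl h
    · exact Or.inl (hub_mix hH hG hO H h1 h2)
    · rcases hub_one hH hG hO H3 with h | h3 | h3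
      · exact Or.inl h
      · exact Or.inl (hub_mix hH hG hO H23 h1 h3)
      · exact Or.inr (Or.inr ⟨h1, h2, h3⟩)

end

end Pool.Agent.Helper9.MC
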