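import Pool.Agent.Helper9.MC.Hub
import Pool.Agent.Helper92.MC.FCNT
import Pool.Agent.Helper45.MC.EJ

/-!
MP_4042d8_co: row H3J (every 3-hub of an optimal colouring with `j = 1` gives a final colouring).
-/

set_option autoImplicit false

namespace Pool.Agent.Helper9.MC

open Pool.Agent.Helper64.MC Pool.Agent.Helper45.MC

theorem st_H3J (h3 : ST_H3) : ST_H3J := by
  intro V _ _ G _ hG c hO a s1 s2 s3 v1 v2 v3 p1 p2 p3 H
  exact hub_all h3 Pool.Agent.Helper92.MC.st_FCNT hG hO H

end Pool.Agent.Helper9.MC
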