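import Pool.Agent.Helper9.MC.Kay
import Pool.Agent.Helper91.MC.Dict

/-!
MP_4042d8_co: 3-hubs of type (beta, alpha''): the count; all 3-hubs.
-/

set_option autoImplicit false
set_option linter.unusedSectionVars false
set_option linter.unusedSimpArgs false
set_option linter.unusedVariables false

namespace Pool.Agent.Helper9.MC

open Pool.Agent.Helper27.MC hiding Fr T1 ter
open Pool.Agent.Helper51.MC Pool.Agent.Helper88.MC Pool.Agent.Helper64.MC
open Pool.Agent.Helper35.MC Pool.Agent.Helper91.MC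

variable {V : Type} [Fintype V] [DecidableEq V] {G : SimpleGraph V} [DecidableRel G.Adj]

section count

variable {c : V → Bool}

/-- Thetas whose partner has a common `S`-neighbour are at most as many as the vertices of `D'`,
if `D'` contains every `S`-vertex which is adjacent to a pair of mates in `Q`. -/
theorem th_le (hG : G.IsRegularOfDegree 3) {j : ℕ} (hj : 1 ≤ j) (hO : Opt G c j) (T D' : Finset V)
    (hT : ∀ q ∈ T, q ∈ Th G c ∧ ∃ n s, Rm G c q n ∧ tS G c s ∧ G.Adj q s ∧ G.Adj n s)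
    (hD : ∀ s ∈ D', s ∈ Dd G c)
    (hD' : ∀ q n s, tQ G c q → Rm G c q n → tS G c s → G.Adj q s → G.Adj n s → s ∈ D') :
    T.card ≤ D'.card := by
  classical
  have hm := hO.mu1
  set t : Finset ((_ : V) × V) := D'.sigma (fun s => Finset.univ.filter (fun w => G.Adj s w ∧ tQ G c w))
    with ht
  have ct : t.card = D'.card * 2 := by
    rw [ht, Finset.card_sigma, ← smul_eq_mul, ← Finset.sum_const]
    refine Finset.sum_congr rfl fun s hs => ?_
    exact (mem_Dd.1 (hD s hs)).2
  have mt : ∀ s w, (⟨s, w⟩ : (_ : V) × V) ∈ t ↔ s ∈ D' ∧ G.Adj s w ∧ tQ G c w := by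
    intro s w
    rw [ht, Finset.mem_sigma, Finset.mem_filter]
    simp
  let r : V → ((_ : V) × V) → Prop := fun q p => p.2 = q ∨ (Rm G c q p.2 ∧ p.2 ∉ Th G c)
  have key := Finset.card_mul_le_card_mul (m := 2) (n := 1) r (s := T) (t := t) ?_ ?_
  · rw [ct] at key
    omega
  · intro q hq
    obtain ⟨hqT, n, s, hn, hs, h1, h2⟩ := hT q hq
    obtain ⟨tq, x, x', hx, a1, a2, t1, t2⟩ := (dict_Th hG q).1 hqT
    have tn : tQ G c n := ⟨by rw [hn.2, tq.1], mu_of_rm hm hn.symm⟩
    have sD := hD' q n s tq hn hs h1 h2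
    have two : ∀ p p' : (_ : V) × V, p ∈ t → p' ∈ t → r q p → r q p' → p ≠ p' →
        2 ≤ (t.bipartiteAbove r q).card := by
      intro p p' h1 h2 h3 h4 h5
      have : ({p, p'} : Finset _) ⊆ t.bipartiteAbove r q := by
        intro z hz
        rw [Finset.mem_insert, Finset.mem_singleton] at hz
        rw [Finset.mem_bipartiteAbove]
        rcases hz with rfl | rfl
        · exact ⟨h1, h3⟩
        · exact ⟨h2, h4⟩
      have h6 := Finset.card_le_card this
      rwa [Finset.card_pair h5] at h6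
    by_cases hnT : n ∈ Th G c
    · obtain ⟨-, y, y', hy, b1, b2, u1, u2⟩ := (dict_Th hG n).1 hnT
      -- the mate of `s` is adjacent to `q` and to `n`
      obtain ⟨s', hss⟩ := exists_mate hs.2
      have f : ∀ w z z' : V, tQ G c w → z ≠ z' → G.Adj w z → G.Adj w z' → tS G c z → tS G c z' →
          G.Adj w s → G.Adj w s' := by
        intro w z z' tw hz c1 c2 d1 d2 c3
        by_cases e : z = s
        · subst e
          have := F1 hG hj hO tw hs d2 c1 c2 hz
          rwa [rm_uniq (hm z) hss this]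
        · have := F1 hG hj hO tw hs d1 c3 c1 (fun h => e h.symm)
          rwa [rm_uniq (hm s) hss this]
      have g1 := f q x x' tq hx a1 a2 t1 t2 h1
      have g2 := f n y y' tn hy b1 b2 u1 u2 h2
      have ts' : tS G c s' := ⟨by rw [hss.2, hs.1], mu_of_rm hm hss.symm⟩
      have s'D := hD' q n s' tq hn ts' g1 g2
      refine two ⟨s, q⟩ ⟨s', q⟩ ((mt _ _).2 ⟨sD, h1.symm, tq⟩) ((mt _ _).2 ⟨s'D, g1.symm, tq⟩)
        (Or.inl rfl) (Or.inl rfl) ?_
      intro e
      exact hss.ne (congrArg Sigma.fst e)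
    · refine two ⟨s, q⟩ ⟨s, n⟩ ((mt _ _).2 ⟨sD, h1.symm, tq⟩) ((mt _ _).2 ⟨sD, h2.symm, tn⟩)
        (Or.inl rfl) (Or.inr ⟨hn, hnT⟩) ?_
      intro e
      simp only [Sigma.mk.injEq, heq_eq_eq, true_and] at e
      exact hn.ne e
  · intro p hp
    rw [Finset.card_le_one]
    intro q hq q' hq'
    rw [Finset.mem_bipartiteBelow] at hq hq'
    obtain ⟨h1, h2⟩ := hq
    obtain ⟨h3, h4⟩ := hq'
    rcases h2 with h2 | ⟨h2, h2'⟩
    · rcases h4 with h4 | ⟨h4, h4'⟩
      · rw [← h2, ← h4]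
      · rw [h2] at h4'
        exact absurd (hT q h1).1 h4'
    · rcases h4 with h4 | ⟨h4, h4'⟩
      · rw [h4] at h2'
        exact absurd (hT q' h3).1 h2'
      · exact rm_uniq (hm _) h2.symm h4.symm

/-- Thetas whose partner is in `Q0` -/
theorem th_Q0 (hm : ∀ v, mu G c v ≤ 1) (T : Finset V)
    (hT : ∀ q ∈ T, ∃ n, Rm G c q n ∧ n ∈ Q0 G c) : T.card ≤ (Q0 G c).card := by
  refine Finset.card_le_card_of_forall_subsingleton (fun q n => Rm G c q n)
    (fun q hq => ?_) (fun n hn => ?_)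
  · obtain ⟨n, h1, h2⟩ := hT q hq
    exact ⟨n, h2, h1⟩
  · intro q hq q' hq'
    exact rm_uniq (hm n) hq.2.symm hq'.2.symm

end count

section

variable {c : V → Bool} {a s1 s2 s3 v1 v2 v3 p1 p2 p3 : V}

/-- type (beta, alpha'') -/
theorem hub_K (hH : ST_H3) (hF : ST_FCNT) (hG : G.IsRegularOfDegree 3) (hO : Opt G c 1)
    (H : Hub3 G c a s1 s2 s3 v1 v2 v3 p1 p2 p3) (b1 : Bet G c v1 s1) (b2 : Bet G c v2 s2)
    (b3 : Bet G c v3 s3) {x x' : V} (hp : N3 G p1 s1 x x') (hx : tB G c x) (hx' : tB G c x') :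
    Good G := by
  classical
  have hm := hO.mu1
  obtain ⟨⟨q1, q2, q3⟩, d12, d13, d23⟩ := hH V G hG c 1 le_rfl hO a s1 s2 s3 v1 v2 v3 p1 p2 p3 H
  by_contra hg
  have bD : ∀ {v s : V}, Bet G c v s → v ∈ Dd G c := by
    rintro v s ⟨e, f, h1, h2, h3, -⟩
    exact (sv_Dd hm h1).2 ⟨h2, h3⟩
  have nFr : ∀ {v : V}, v ∈ Dd G c → v ∉ Fr G c := by
    intro v h1 h2
    have h3 := (mem_Dd.1 h1).2
    have h4 := (mem_Fr.1 h2).2
    omega
  -- the slot `(s1, p1)`
  have S : Slot G c s1 v1 p1 a x x' :=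
    ⟨H.h1.cs, H.h1.cm, q1.1, H.av.ca, q1.2, av_mu H.av, H.h1.n3.yz.symm,
      fun w => (H.h1.n3.nb w).trans (by constructor <;> rintro (h | h | h) <;> simp [h]),
      hp.nb, hp.yz, hp.xy.symm, hp.xz.symm⟩
  have hfr : ∀ s ∈ Fr G c, s = s1 ∨ s = s2 ∨ s = s3 := by
    intro s hs
    by_contra hn
    push Not at hn
    refine hg (good_one hO (st_PA V G hG c hm s1 v1 p1 a x x' s S
      (fun w hw => absurd hw (nomate hx.2 w)) (fun w hw => absurd hw (nomate hx'.2 w)) hs hn.1
      ?_ ?_))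
    · rintro rfl
      exact nFr (bD b1) hs
    · intro h
      rcases (H.av.n3.nb s).1 h.symm with h | h | h
      exacts [hn.1 h, hn.2.1 h, hn.2.2 h]
  have cFr : (Fr G c).card ≤ 3 := by
    refine (Finset.card_le_card (t := {s1, s2, s3}) ?_).trans Finset.card_le_three
    intro s hs
    simpa using hfr s hs
  set D' := Dd G c \ {v1, v2, v3} with hD'
  have dv12 : v1 ≠ v2 := by
    intro h
    have := sv_rm H.h2
    rw [← h] at this
    exact H.av.n3.xy (rm_uniq (hm v1) (sv_rm H.h1).symm this.symm)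
  have dv13 : v1 ≠ v3 := by
    intro h
    have := sv_rm H.h3
    rw [← h] at this
    exact H.av.n3.xz (rm_uniq (hm v1) (sv_rm H.h1).symm this.symm)
  have dv23 : v2 ≠ v3 := by
    intro h
    have := sv_rm H.h3
    rw [← h] at this
    exact H.av.n3.yz (rm_uniq (hm v2) (sv_rm H.h2).symm this.symm)
  have cD : D'.card + 3 = (Dd G c).card := by
    have h1 : ({v1, v2, v3} : Finset V) ⊆ Dd G c := by
      intro v hv
      simp only [Finset.mem_insert, Finset.mem_singleton] at hv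
      rcases hv with rfl | rfl | rfl
      exacts [bD b1, bD b2, bD b3]
    have h2 := Finset.card_sdiff_add_card_eq_card h1
    have h3 : ({v1, v2, v3} : Finset V).card = 3 := by
      rw [Finset.card_insert_of_notMem, Finset.card_pair dv23]
      simp [dv12, dv13]
    rw [h3] at h2
    exact h2
  -- the Thetas
  set T0 := (Th G c).filter (fun q => ∃ n ∈ Q0 G c, G.Adj q n ∧ c n = c q) with hT0
  set T1 := (Th G c).filter (fun q => ¬ ∃ n ∈ Q0 G c, G.Adj q n ∧ c n = c q) with hT1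
  have cT : T0.card + T1.card = (Th G c).card := Finset.card_filter_add_card_filter_not _
  have c0 : T0.card ≤ (Q0 G c).card := by
    refine th_Q0 hm T0 fun q hq => ?_
    rw [hT0, Finset.mem_filter] at hq
    obtain ⟨-, n, h1, h2⟩ := hq
    exact ⟨n, h2, h1⟩
  have c1 : T1.card ≤ D'.card := by
    refine th_le hG le_rfl hO T1 D' ?_ (fun s hs => (Finset.mem_sdiff.1 hs).1) ?_
    · intro q hq
      rw [hT1, Finset.mem_filter] at hq
      obtain ⟨h1, h2⟩ := hq
      refine ⟨h1, ?_⟩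
      obtain ⟨tq, s, s', hne, a1, a2, t1, t2⟩ := (dict_Th hG q).1 h1
      obtain ⟨hss, n, hn, hnq⟩ := th_data hG hO tq t1 t2 a1 a2 hne
      have tn : tQ G c n := ⟨by rw [hn.2, tq.1], mu_of_rm hm hn.symm⟩
      by_cases k1 : G.Adj n s
      · exact ⟨n, s, hn, t1, a1, k1⟩
      by_cases k2 : G.Adj n s'
      · exact ⟨n, s', hn, t2, a2, k2⟩
      exfalso
      refine h2 ⟨n, (dict_Q0 n).2 ⟨tn, fun u hu hu' => ?_⟩, hn⟩
      exact hg (partner hH hG hO H b1 b2 b3 hp hx hx' tq t1 t2 hss hn hnq k1 k2 hu' hu)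
    · intro q n s hq hn hs h1 h2
      obtain ⟨m, hsm⟩ := exists_mate hs.2
      obtain ⟨e, f, he⟩ := sv_all hG hs hm hsm
      have tn : tQ G c n := ⟨by rw [hn.2, hq.1], mu_of_rm hm hn.symm⟩
      have hef : (q = e ∧ n = f) ∨ (q = f ∧ n = e) := by
        have i1 := (he.n3.nb q).1 h1.symm
        have i2 := (he.n3.nb n).1 h2.symm
        have j1 : q ≠ m := ne_tf hq.1 he.cm
        have j2 : n ≠ m := ne_tf tn.1 he.cm
        have j3 := hn.ne
        rcases i1 with i1 | i1 | i1
        · exact absurd i1 j1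
        · rcases i2 with i2 | i2 | i2
          · exact absurd i2 j2
          · exact absurd (i1.trans i2.symm) j3
          · exact Or.inl ⟨i1, i2⟩
        · rcases i2 with i2 | i2 | i2
          · exact absurd i2 j2
          · exact Or.inr ⟨i1, i2⟩
          · exact absurd (i1.trans i2.symm) j3
      have sD : s ∈ Dd G c := by
        rw [sv_Dd hm he]
        rcases hef with ⟨rfl, rfl⟩ | ⟨rfl, rfl⟩
        · exact ⟨hq, tn⟩
        · exact ⟨tn, hq⟩
      refine Finset.mem_sdiff.2 ⟨sD, ?_⟩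
      have nb : ∀ {v t : V}, Bet G c v t → s ≠ v := by
        rintro v t ⟨e', f', g1, g2, g3, g4⟩ rfl
        have i1 := (g1.n3.nb q).1 h1.symm
        have i2 := (g1.n3.nb n).1 h2.symm
        rcases i1 with i1 | i1 | i1
        · exact ne_tf hq.1 g1.cm i1
        · rcases i2 with i2 | i2 | i2
          · exact ne_tf tn.1 g1.cm i2
          · exact hn.ne (i1.trans i2.symm)
          · exact g4 (i1 ▸ i2 ▸ hn)
        · rcases i2 with i2 | i2 | i2
          · exact ne_tf tn.1 g1.cm i2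
          · exact g4 (i1 ▸ i2 ▸ hn.symm)
          · exact hn.ne (i1.trans i2.symm)
      simp only [Finset.mem_insert, Finset.mem_singleton, not_or]
      exact ⟨nb b1, nb b2, nb b3⟩
  have hf := (hF V G hG c 1 hm hO.imb2).1
  omega

end

end Pool.Agent.Helper9.MC
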