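import Pool.Agent.Helper91.MC.ONE
import Pool.Agent.Helper91.MC.SVX
import Pool.Agent.Helper42.MC.ZERO
import Pool.Agent.Helper35.MC.Ob

/-!
MP_4042d8_co: rotation of a Theta `(q; s, s')`, partner `n`, outer vertex `y` of type `A` at `s`.
-/

set_option autoImplicit false
set_option linter.unusedSectionVars false
set_option linter.unusedSimpArgs false
set_option linter.unusedVariables false

namespace Pool.Agent.Helper9.MC

open Pool.Agent.Helper27.MC Pool.Agent.Helper51.MC Pool.Agent.Helper88.MC Pool.Agent.Helper64.MC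
open Pool.Agent.Helper35.MC Pool.Agent.Helper91.MC

variable {V : Type} [Fintype V] [DecidableEq V] {G : SimpleGraph V} [DecidableRel G.Adj]

section

variable {c : V → Bool} {s s' q n y : V}

/-- unchanged `mu` -/
theorem pair_mu {w : V} (h1 : w ≠ s) (h2 : w ≠ q) (h3 : ¬ G.Adj w s) (h4 : ¬ G.Adj w q) :
    mu G (flp c {s, q}) w = mu G c w := by
  refine mu_congr G (flp_not (by simp [h1, h2])) fun x hx => flp_not ?_
  simp only [Finset.mem_insert, Finset.mem_singleton]
  rintro (rfl | rfl)
  · exact h3 hx
  · exact h4 hx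

theorem pair_col {w : V} (h1 : w ≠ s) (h2 : w ≠ q) : flp c {s, q} w = c w :=
  flp_not (by simp [h1, h2])

theorem rot_all (hm : ∀ v, mu G c v ≤ 1) (hs : Sv G c s s' q y) (hq : N3 G q n s s')
    (hn : Rm G c q n) (hy : tA G c y) :
    (∀ v, mu G (flp c {s, q}) v ≤ 1) ∧ mu G (flp c {s, q}) n = 0 := by
  obtain ⟨cs, cs', cq, cy, ⟨ns, e1, e2, e3⟩⟩ := hs
  obtain ⟨nq, f1, f2, f3⟩ := hq
  obtain ⟨-, my⟩ := hy
  have hR : ∀ x y, Rm G c x y ↔ (G.Adj x y ∧ c y = c x) := fun _ _ => Iff.rfl
  have hsym : ∀ x y, G.Adj x y ↔ G.Adj y x := fun x y => G.adj_comm x y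
  have hirr : ∀ x, ¬ G.Adj x x := fun x => G.loopless.irrefl x
  have cn : c n = true := by rw [hn.2, cq]
  have r1 : Rm G c s s' := ⟨(ns s').2 (by simp), by rw [cs', cs]⟩
  have us : ∀ x, Rm G c s x ↔ x = s' := fun x => ⟨fun h => rm_uniq (hm s) h r1, fun h => h ▸ r1⟩
  have us' : ∀ x, Rm G c s' x ↔ x = s :=
    fun x => ⟨fun h => rm_uniq (hm s') h r1.symm, fun h => h ▸ r1.symm⟩
  have uq : ∀ x, Rm G c q x ↔ x = n := fun x => ⟨fun h => rm_uniq (hm q) h hn, fun h => h ▸ hn⟩
  have un : ∀ x, Rm G c n x ↔ x = q :=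
    fun x => ⟨fun h => rm_uniq (hm n) h hn.symm, fun h => h ▸ hn.symm⟩
  have uy : ∀ x, ¬ Rm G c y x := nomate my
  have yn : y ≠ n := by rintro rfl; exact uy q hn.symm
  have sn : ¬ G.Adj s n := by rw [ns]; grind
  have nX : n ∉ ({s, q} : Finset V) := by
    simp only [Finset.mem_insert, Finset.mem_singleton]; grind
  constructor
  · intro w
    by_cases ws : w = s
    · subst ws
      refine mu_le_one (z := y) ?_
      intro x
      rw [rm_in (by simp), hR]
      simp only [Finset.mem_insert, Finset.mem_singleton]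
      grind
    by_cases wq : w = q
    · subst wq
      refine mu_le_one (z := s') ?_
      intro x
      rw [rm_in (by simp), hR]
      simp only [Finset.mem_insert, Finset.mem_singleton]
      grind
    have wX : w ∉ ({s, q} : Finset V) := by
      simp only [Finset.mem_insert, Finset.mem_singleton]; grind
    by_cases wy : w = y
    · subst wy
      refine mu_le_one (z := s) ?_
      intro x
      rw [rm_out wX]
      simp only [Finset.mem_insert, Finset.mem_singleton]
      grind
    by_cases ws' : w = s'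
    · subst ws'
      refine mu_le_one (z := q) ?_
      intro x
      rw [rm_out wX]
      simp only [Finset.mem_insert, Finset.mem_singleton]
      grind
    refine out_le hm wX ?_
    simp only [Finset.mem_insert, Finset.mem_singleton]
    intro x hx hyx
    have hxy := (hsym w x).1 hyx
    rcases hx with rfl | rfl
    · rcases (ns w).1 hxy with h | h | h
      · exact absurd h ws'
      · exact absurd h wq
      · exact absurd h wy
    · rcases (nq w).1 hxy with h | h | h
      · rw [h, cq, cn]
      · exact absurd h ws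
      · exact absurd h ws'
  · refine mu_eq_zero ?_
    intro x
    rw [rm_out nX]
    simp only [Finset.mem_insert, Finset.mem_singleton]
    grind

theorem rot_opt (hG : G.IsRegularOfDegree 3) {j : ℕ} (hO : Opt G c j) (hs : Sv G c s s' q y)
    (hq : N3 G q n s s') (hn : Rm G c q n) (hy : tA G c y) : Opt G (flp c {s, q}) j := by
  have hm := hO.mu1
  have hr := rot_all hm hs hq hn hy
  have sq : s ≠ q := by
    rintro rfl
    have := hs.cs
    rw [hs.ca] at this
    cases this
  refine (Pool.Agent.Helper42.MC.ZERO V G hG c j hO).1 {s, q} ?_ ?_ hr.1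
  · have hX : ([s, q] : List V).toFinset = {s, q} := by simp
    have hnd : ([s, q] : List V).Nodup := by simp [sq]
    rw [← hX, cost_list c _ hnd]
    have m1 : mu G c s = 1 := mu_of_rm hm (sv_rm hs)
    have m2 : mu G c q = 1 := mu_of_rm hm hn
    simp only [cl_cons, cl_nil, List.map_cons, List.map_nil, List.sum_cons, List.sum_nil, m1, m2]
    have g : sf G c s q = 1 := sf_adj ((hs.n3.nb q).2 (by simp)) (by rw [hs.cs, hs.ca]; decide)
    rw [g]
    norm_num
  · unfold dd
    rw [Finset.sum_pair sq, hs.cs, hs.ca]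
    simp

end

end Pool.Agent.Helper9.MC
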