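import Pool.Agent.Helper9.MC.Tt
import Pool.Agent.Helper9.MC.Rot

/-!
MP_4042d8_co: 3-hubs of type (beta, alpha''): the partners of the Thetas.
-/

set_option autoImplicit false
set_option linter.unusedSectionVars false
set_option linter.unusedSimpArgs false
set_option linter.unusedVariables false

namespace Pool.Agent.Helper9.MC

open Pool.Agent.Helper27.MC Pool.Agent.Helper51.MC Pool.Agent.Helper88.MC Pool.Agent.Helper64.MC
open Pool.Agent.Helper35.MC Pool.Agent.Helper91.MC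

variable {V : Type} [Fintype V] [DecidableEq V] {G : SimpleGraph V} [DecidableRel G.Adj]

section

variable {c : V → Bool} {a s1 s2 s3 v1 v2 v3 p1 p2 p3 s s' q n y : V}

theorem ne_tf {x z : V} (hx : c x = true) (hz : c z = false) : x ≠ z := by
  rintro rfl
  rw [hx] at hz
  cases hz

theorem ne_AQ {x z : V} (hx : mu G c x = 0) (hz : mu G c z = 1) : x ≠ z := by
  rintro rfl
  omega

/-- a hub and an `N` slot survive the rotation; a new free vertex finishes -/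
theorem rot_PA (hG : G.IsRegularOfDegree 3) (hO : Opt G c 1)
    (H : Hub3 G c a s1 s2 s3 v1 v2 v3 p1 p2 p3) (q1 : tA G c p1) (hs : Sv G c s s' q y)
    (hq : N3 G q n s s') (hn : Rm G c q n) (hy : tA G c y) (w1 : s ≠ s1) (w2 : s ≠ s2)
    (w3 : s ≠ s3) (w4 : s ≠ v1) (yp : y ≠ p1) {x x' : V} (hp : N3 G p1 s1 x x')
    (hx : tB G c x) (hx' : tB G c x') {u m e : V} (hu : Sv G c u m n e) (u1 : u ≠ s) (u2 : u ≠ s')
    (he : tA G c e) (ey : e ≠ y) (z1 : u ≠ s1) (z2 : u ≠ s2) (z3 : u ≠ s3) (z4 : u ≠ v1) :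
    Good G := by
  have hm := hO.mu1
  have hO' := rot_opt hG hO hs hq hn hy
  obtain ⟨hm', hn0⟩ := rot_all hm hs hq hn hy
  have mq : mu G c q = 1 := mu_of_rm hm hn
  have mn : mu G c n = 1 := mu_of_rm hm hn.symm
  have cn : c n = true := by rw [hn.2, hs.ca]
  have ma : mu G c a = 0 := av_mu H.av
  have cs' := hs.cm
  -- adjacency to `s`, `q`
  have aS : ∀ w, c w = true → w ≠ q → w ≠ y → ¬ G.Adj w s := by
    intro w cw h1 h2 h3
    rcases (hs.n3.nb w).1 h3.symm with h | h | h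
    · exact ne_tf cw cs' h
    · exact h1 h
    · exact h2 h
  have bS : ∀ w, c w = false → w ≠ s' → ¬ G.Adj w s := by
    intro w cw h1 h3
    rcases (hs.n3.nb w).1 h3.symm with h | h | h
    · exact h1 h
    · exact ne_tf hs.ca cw h.symm
    · exact ne_tf hs.cb cw h.symm
  have aQ : ∀ w, c w = true → w ≠ n → ¬ G.Adj w q := by
    intro w cw h1 h3
    rcases (hq.nb w).1 h3.symm with h | h | h
    · exact h1 h
    · exact ne_tf cw hs.cs h
    · exact ne_tf cw cs' h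
  have bQ : ∀ w, c w = false → w ≠ s → w ≠ s' → ¬ G.Adj w q := by
    intro w cw h1 h2 h3
    rcases (hq.nb w).1 h3.symm with h | h | h
    · exact ne_tf cn cw h.symm
    · exact h1 h
    · exact h2 h
  have colT : ∀ w, c w = true → w ≠ q → flp c {s, q} w = true := by
    intro w cw h1
    rw [pair_col (ne_tf cw hs.cs) h1, cw]
  have colF : ∀ w, c w = false → w ≠ s → flp c {s, q} w = false := by
    intro w cw h1
    rw [pair_col h1 (ne_tf hs.ca cw).symm, cw]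
  have muA : ∀ w, tA G c w → w ≠ y → mu G (flp c {s, q}) w = 0 := by
    intro w hw h1
    have hwq : w ≠ q := ne_AQ hw.2 mq
    have hwn : w ≠ n := ne_AQ hw.2 mn
    rw [pair_mu (ne_tf hw.1 hs.cs) hwq (aS w hw.1 hwq h1) (aQ w hw.1 hwn), hw.2]
  have muB : ∀ w, tB G c w → mu G (flp c {s, q}) w = 0 := by
    intro w hw
    have h1 : w ≠ s := by
      rintro rfl
      exact nomate hw.2 _ (sv_rm hs)
    have h2 : w ≠ s' := by
      rintro rfl
      exact nomate hw.2 _ (sv_rm hs).symm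
    rw [pair_mu h1 (ne_tf hs.ca hw.1).symm (bS w hw.1 h2) (bQ w hw.1 h1 h2), hw.2]
  have ms' : s' ≠ s := (sv_rm hs).ne.symm
  have v1s : v1 ≠ s := w4.symm
  -- the slot
  have ya : y ≠ a := by
    rintro rfl
    rcases (H.av.n3.nb s).1 ((hs.n3.nb y).2 (by simp)).symm with h | h | h
    exacts [w1 h, w2 h, w3 h]
  have aA : tA G c a := ⟨H.av.ca, ma⟩
  have S : Slot G (flp c {s, q}) s1 v1 p1 a x x' := by
    refine ⟨colF s1 H.h1.cs w1.symm, colF v1 H.h1.cm v1s, colT p1 q1.1 (ne_AQ q1.2 mq),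
      colT a H.av.ca (ne_AQ ma mq), muA p1 q1 yp.symm, muA a aA ya.symm, H.h1.n3.yz.symm,
      fun w => (H.h1.n3.nb w).trans ?_, hp.nb, hp.yz, hp.xy.symm, hp.xz.symm⟩
    constructor <;> rintro (h | h | h) <;> simp [h]
  have mes : m ≠ s := by
    rintro rfl
    exact u2 (rm_uniq (hm m) (sv_rm hu).symm (sv_rm hs))
  have en : e ≠ n := ne_AQ he.2 mn
  have eq' : e ≠ q := ne_AQ he.2 mq
  have nq : n ≠ q := hn.ne.symm
  have hu' : Sv G (flp c {s, q}) u m n e :=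
    ⟨colF u hu.cs u1, colF m hu.cm mes, colT n cn nq, colT e he.1 eq', hu.n3⟩
  have fr : u ∈ Pool.Agent.Helper64.MC.Fr G (flp c {s, q}) :=
    (sv_Fr hm' hu').2 ⟨⟨colT n cn nq, hn0⟩, ⟨colT e he.1 eq', muA e he ey⟩⟩
  have hua : ¬ G.Adj u a := by
    intro h
    rcases (H.av.n3.nb u).1 h.symm with h | h | h
    exacts [z1 h, z2 h, z3 h]
  exact good_one hO' (st_PA V G hG _ hm' s1 v1 p1 a x x' u S
    (fun w hw => absurd hw (nomate (muB x hx) w)) (fun w hw => absurd hw (nomate (muB x' hx') w))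
    fr z1 z4 hua)

/-- rotation when the mate `v1` is adjacent to the partner -/
theorem rot_T1 (hH : ST_H3) (hG : G.IsRegularOfDegree 3) (hO : Opt G c 1)
    (H : Hub3 G c a s1 s2 s3 v1 v2 v3 p1 p2 p3) (hs : Sv G c s s' q y)
    (hq : N3 G q n s s') (hn : Rm G c q n) (hy : tA G c y)
    (w1 : s ≠ s1) (w2 : s ≠ s2) (w3 : s ≠ s3) (w4 : s ≠ v1) (w5 : s ≠ v2) (w6 : s ≠ v3)
    (q1 : tA G c p1) (q2 : tA G c p2) (q3 : tA G c p3) (w7 : s' ≠ v1) 
    {f : V} (hv : Sv G c v1 s1 n f) (hf : tQ G c f) : Good G := by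
  have hm := hO.mu1
  have hO' := rot_opt hG hO hs hq hn hy
  obtain ⟨hm', hn0⟩ := rot_all hm hs hq hn hy
  have mq : mu G c q = 1 := mu_of_rm hm hn
  have mn : mu G c n = 1 := mu_of_rm hm hn.symm
  have cn : c n = true := by rw [hn.2, hs.ca]
  have ma : mu G c a = 0 := av_mu H.av
  have cs' := hs.cm
  have colT : ∀ w, c w = true → w ≠ q → flp c {s, q} w = true := by
    intro w cw h1
    rw [pair_col (ne_tf cw hs.cs) h1, cw]
  have colF : ∀ w, c w = false → w ≠ s → flp c {s, q} w = false := by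
    intro w cw h1
    rw [pair_col h1 (ne_tf hs.ca cw).symm, cw]
  have colA : ∀ w, tA G c w → flp c {s, q} w = true := fun w hw => colT w hw.1 (ne_AQ hw.2 mq)
  have aA : tA G c a := ⟨H.av.ca, ma⟩
  have nr : ∀ x y, c x = c y → flp c {s, q} x = flp c {s, q} y → ¬ Rm G c x y →
      ¬ Rm G (flp c {s, q}) x y := fun x y h1 h2 h3 h4 => h3 ⟨h4.1, h1.symm⟩
  have f1 := colF s1 H.h1.cs w1.symm
  have f2 := colF s2 H.h2.cs w2.symm
  have f3 := colF s3 H.h3.cs w3.symm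
  have H' : Hub3 G (flp c {s, q}) a s1 s2 s3 v1 v2 v3 p1 p2 p3 :=
    ⟨⟨colA a aA, f1, f2, f3, H.av.n3⟩,
      ⟨f1, colF v1 H.h1.cm w4.symm, colA a aA, colA p1 q1, H.h1.n3⟩,
      ⟨f2, colF v2 H.h2.cm w5.symm, colA a aA, colA p2 q2, H.h2.n3⟩,
      ⟨f3, colF v3 H.h3.cm w6.symm, colA a aA, colA p3 q3, H.h3.n3⟩,
      nr _ _ (by rw [H.h1.cs, H.h2.cs]) (by rw [f1, f2]) H.n12,
      nr _ _ (by rw [H.h1.cs, H.h3.cs]) (by rw [f1, f3]) H.n13,
      nr _ _ (by rw [H.h2.cs, H.h3.cs]) (by rw [f2, f3]) H.n23⟩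
  have fq : f ≠ q := by
    rintro rfl
    rcases (hq.nb v1).1 ((hv.n3.nb f).2 (by simp)).symm with h | h | h
    · exact ne_tf cn H.h1.cm h.symm
    · exact w4 h.symm
    · exact w7 h.symm
  have fn : f ≠ n := hv.n3.yz.symm
  have muf : mu G (flp c {s, q}) f = 1 := by
    rw [pair_mu (ne_tf hf.1 hs.cs) fq, hf.2]
    · intro h
      rcases (hs.n3.nb f).1 h.symm with h | h | h
      · exact ne_tf hf.1 cs' h
      · exact fq h
      · exact ne_AQ hy.2 hf.2 h.symm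
    · intro h
      rcases (hq.nb f).1 h.symm with h | h | h
      · exact fn h
      · exact ne_tf hf.1 hs.cs h
      · exact ne_tf hf.1 cs' h
  have hv' : Sv G (flp c {s, q}) v1 s1 n f :=
    ⟨H'.h1.cm, f1, colT n cn hn.ne.symm, colT f hf.1 fq, hv.n3⟩
  exact hub_T1 hH hG hO' H' hv' ⟨colT n cn hn.ne.symm, hn0⟩ ⟨colT f hf.1 fq, muf⟩

/-- the three neighbours of a Theta -/
theorem th_data (hG : G.IsRegularOfDegree 3) (hO : Opt G c 1) (hq : tQ G c q) (hs : tS G c s)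
    (hs' : tS G c s') (h : G.Adj q s) (h' : G.Adj q s') (hne : s ≠ s') :
    Rm G c s s' ∧ ∃ n, Rm G c q n ∧ N3 G q n s s' := by
  have hm := hO.mu1
  refine ⟨F1 hG le_rfl hO hq hs hs' h h' hne, ?_⟩
  obtain ⟨n, e1, e2, h1, h2, h3, nb, cm, ca, cb⟩ := (NB V G hG c q).1 hq.2
  rw [hq.1] at cm ca cb
  have hsn : s ≠ n := (ne_tf cm hs.1).symm
  have hsn' : s' ≠ n := (ne_tf cm hs'.1).symm
  refine ⟨n, ⟨(nb n).2 (by simp), by rw [cm, hq.1]⟩, ⟨fun w => (nb w).trans ?_, hsn.symm,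
    hsn'.symm, hne⟩⟩
  have a1 := (nb s).1 h
  have a2 := (nb s').1 h'
  grind

/-- the partner of a Theta -/
theorem partner (hH : ST_H3) (hG : G.IsRegularOfDegree 3) (hO : Opt G c 1)
    (H : Hub3 G c a s1 s2 s3 v1 v2 v3 p1 p2 p3) (b1 : Bet G c v1 s1) (b2 : Bet G c v2 s2)
    (b3 : Bet G c v3 s3) {x x' : V} (hp : N3 G p1 s1 x x') (hx : tB G c x) (hx' : tB G c x')
    (hq : tQ G c q) (hs : tS G c s) (hs' : tS G c s') (hns : Rm G c s s')
    (hn : Rm G c q n) (hnq : N3 G q n s s') (k1 : ¬ G.Adj n s) (k2 : ¬ G.Adj n s') {u : V}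
    (hu : tS G c u) (hun : G.Adj n u) : Good G := by
  have hm := hO.mu1
  obtain ⟨⟨q1, q2, q3⟩, d12, d13, d23⟩ := hH V G hG c 1 le_rfl hO a s1 s2 s3 v1 v2 v3 p1 p2 p3 H
  have ma : mu G c a = 0 := av_mu H.av
  have mn : mu G c n = 1 := mu_of_rm hm hn.symm
  have cn : c n = true := by rw [hn.2, hq.1]
  have tn : tQ G c n := ⟨cn, mn⟩
  have adqs : G.Adj q s := (hnq.nb s).2 (by simp)
  have adqs' : G.Adj q s' := (hnq.nb s').2 (by simp)
  -- an `S`-vertex of the hub has no neighbour of type `Q`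
  have fS : ∀ {t w v r b : V}, Sv G c t v a b → tA G c b → tQ G c w → G.Adj w t → False := by
    intro t w v r b h1 h2 h3 h4
    rcases (h1.n3.nb w).1 h4.symm with h | h | h
    · exact ne_tf h3.1 h1.cm h
    · exact ne_AQ ma h3.2 h.symm
    · exact ne_AQ h2.2 h3.2 h.symm
  have nS1 : ∀ {w t : V}, tQ G c w → G.Adj w t → t ≠ s1 ∧ t ≠ s2 ∧ t ≠ s3 := by
    intro w t h1 h2
    refine ⟨?_, ?_, ?_⟩
    · rintro rfl
      exact fS (r := t) H.h1 q1 h1 h2
    · rintro rfl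
      exact fS (r := t) H.h2 q2 h1 h2
    · rintro rfl
      exact fS (r := t) H.h3 q3 h1 h2
  have nV1 : ∀ {w t t' : V}, tQ G c w → Rm G c t t' → G.Adj w t' → t ≠ v1 ∧ t ≠ v2 ∧ t ≠ v3 := by
    intro w t t' h1 h2 h3
    obtain ⟨g1, g2, g3⟩ := nS1 h1 h3
    refine ⟨?_, ?_, ?_⟩
    · rintro rfl
      exact g1 (rm_uniq (hm t) h2 (sv_rm H.h1).symm)
    · rintro rfl
      exact g2 (rm_uniq (hm t) h2 (sv_rm H.h2).symm)
    · rintro rfl
      exact g3 (rm_uniq (hm t) h2 (sv_rm H.h3).symm)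
  obtain ⟨sa, sb, sc⟩ := nS1 hq adqs
  obtain ⟨sd, se, sf⟩ := nV1 hq hns adqs'
  obtain ⟨sa', sb', sc'⟩ := nS1 hq adqs'
  obtain ⟨sd', se', sf'⟩ := nV1 hq hns.symm adqs
  obtain ⟨ua, ub, uc⟩ := nS1 tn hun
  -- the outer vertices
  have outer : ∀ {t t' : V}, tS G c t → Rm G c t t' → G.Adj q t → ¬ G.Adj n t → t ≠ s1 → t ≠ s2 →
      t ≠ s3 → t ≠ v1 → t ≠ v2 → t ≠ v3 → ∃ y, Sv G c t t' q y ∧ tA G c y ∧ y ≠ p1 := by
    intro t t' h1 h2 h3 h4 w1 w2 w3 w4 w5 w6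
    obtain ⟨e, f, he⟩ := sv_all hG h1 hm h2
    have hqt : q = e ∨ q = f := by
      rcases (he.n3.nb q).1 h3.symm with h | h | h
      · exact absurd h (ne_tf hq.1 he.cm)
      · exact Or.inl h
      · exact Or.inr h
    obtain ⟨y, hy⟩ : ∃ y, Sv G c t t' q y := by
      rcases hqt with h | h
      · exact ⟨f, h ▸ he⟩
      · exact ⟨e, h ▸ sv_swap he⟩
    have ady : G.Adj t y := (hy.n3.nb y).2 (by simp)
    refine ⟨y, hy, ?_, ?_⟩
    · rcases tA_or_tQ hm hy.cb with h | h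
      · exact h
      · exfalso
        have := hub_T hH hG hO H h1 w1 w2 w3 w4 w5 w6 h3.symm ady hq (Or.inl h) hy.n3.yz
        have : y = n := rm_uniq (hm q) this hn
        exact h4 (this ▸ ady.symm)
    · rintro rfl
      have := hub_T hH hG hO H h1 w1 w2 w3 w4 w5 w6 h3.symm ady hq (Or.inr (Or.inl rfl)) hy.n3.yz
      exact nomate q1.2 q this.symm
  obtain ⟨y, hy, ay, yp⟩ := outer hs hns adqs k1 sa sb sc sd se sf
  obtain ⟨y', hy', ay', yp'⟩ := outer hs' hns.symm adqs' k2 sa' sb' sc' sd' se' sf'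
  have hnq' : N3 G q n s' s := ⟨fun w => (hnq.nb w).trans (by tauto), hnq.xz, hnq.xy, hnq.yz.symm⟩
  have us : u ≠ s := by rintro rfl; exact k1 hun
  have us' : u ≠ s' := by rintro rfl; exact k2 hun
  -- `u` is a mate
  have mate : ∀ {t v : V}, Bet G c v t → G.Adj n v → ∃ f, Sv G c v t n f ∧ tQ G c f := by
    rintro t v ⟨e, f, h1, h2, h3, h4⟩ h5
    rcases (h1.n3.nb n).1 h5.symm with h | h | h
    · exact absurd h (ne_tf cn h1.cm)
    · exact ⟨f, h ▸ h1, h3⟩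
    · exact ⟨e, h ▸ sv_swap h1, h2⟩
  by_cases uv1 : u = v1
  · obtain ⟨f, h1, h2⟩ := mate b1 (uv1 ▸ hun)
    exact rot_T1 hH hG hO H hy hnq hn ay sa sb sc sd se sf q1 q2 q3 sd' h1 h2
  by_cases uv2 : u = v2
  · obtain ⟨f, h1, h2⟩ := mate b2 (uv2 ▸ hun)
    exact rot_T1 hH hG hO (hub_p12 H) hy hnq hn ay sb sa sc se sd sf q2 q1 q3 se' h1 h2
  by_cases uv3 : u = v3
  · obtain ⟨f, h1, h2⟩ := mate b3 (uv3 ▸ hun)
    exact rot_T1 hH hG hO (hub_p12 (hub_p23 H)) hy hnq hn ay sc sa sb sf sd se q3 q1 q2 sf' h1 h2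
  -- the other neighbour of `u`
  obtain ⟨m, hum⟩ := exists_mate hu.2
  obtain ⟨e0, f0, h0⟩ := sv_all hG hu hm hum
  obtain ⟨e, he⟩ : ∃ e, Sv G c u m n e := by
    rcases (h0.n3.nb n).1 hun.symm with h | h | h
    · exact absurd h (ne_tf cn h0.cm)
    · exact ⟨f0, h ▸ h0⟩
    · exact ⟨e0, h ▸ sv_swap h0⟩
  have ade : G.Adj u e := (he.n3.nb e).2 (by simp)
  have ae : tA G c e := by
    rcases tA_or_tQ hm he.cb with h | h
    · exact h
    · exfalso
      have := hub_T hH hG hO H hu ua ub uc uv1 uv2 uv3 hun.symm ade tn (Or.inl h) he.n3.yz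
      have : e = q := rm_uniq (hm n) this hn.symm
      rcases (hnq.nb u).1 (this ▸ ade.symm) with h | h | h
      · exact ne_tf cn hu.1 h.symm
      · exact us h
      · exact us' h
  by_cases ey : e = y
  · by_cases ey' : e = y'
    · exfalso
      subst ey
      subst ey'
      have hO' := rot_opt hG hO hy hnq hn ay
      obtain ⟨hm', hn0⟩ := rot_all hm hy hnq hn ay
      have sq : s ≠ q := (ne_tf hq.1 hs.1).symm
      have cs1 : flp c {s, q} s = true := by rw [flp_in (by simp), hs.1]; rfl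
      have cq1 : flp c {s, q} q = false := by rw [flp_in (by simp), hq.1]; rfl
      have ce1 : flp c {s, q} e = true := by
        rw [pair_col (ne_tf ae.1 hs.1) (ne_AQ ae.2 hq.2), ae.1]
      have cs1' : flp c {s, q} s' = false := by
        rw [pair_col hns.ne.symm (ne_tf hq.1 hs'.1).symm, hs'.1]
      have cu1 : flp c {s, q} u = false := by
        rw [pair_col us (ne_tf hq.1 hu.1).symm, hu.1]
      have cm1 : flp c {s, q} m = false := by
        rw [pair_col ?_ (ne_tf hq.1 he.cm).symm, he.cm]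
        rintro rfl
        exact us' (rm_uniq (hm m) hum.symm hns)
      have r1 : Rm G (flp c {s, q}) e s := ⟨((hy.n3.nb e).2 (by simp)).symm, by rw [cs1, ce1]⟩
      have r2 : Rm G (flp c {s, q}) s' q := ⟨adqs'.symm, by rw [cs1', cq1]⟩
      have r3 : Rm G (flp c {s, q}) u m := ⟨hum.1, by rw [cu1, cm1]⟩
      have t1 : tQ G (flp c {s, q}) e := ⟨ce1, mu_of_rm hm' r1⟩
      have t2 : tS G (flp c {s, q}) s' := ⟨cs1', mu_of_rm hm' r2⟩
      have t3 : tS G (flp c {s, q}) u := ⟨cu1, mu_of_rm hm' r3⟩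
      have r4 := F1 hG le_rfl hO' t1 t2 t3 ((hy'.n3.nb e).2 (by simp)).symm ade.symm us'.symm
      have : u = q := rm_uniq (hm' s') r4 r2
      exact ne_tf hq.1 hu.1 this.symm
    · exact rot_PA hG hO H q1 hy' hnq' hn ay' sa' sb' sc' sd' yp' hp hx hx' he us' us ae ey' ua ub
        uc uv1
  · exact rot_PA hG hO H q1 hy hnq hn ay sa sb sc sd yp hp hx hx' he us us' ae ey ua ub uc uv1

end

end Pool.Agent.Helper9.MC
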