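import Pool.Agent.Helper64.MC.St1
import Pool.Agent.Helper91.MC.PA
import Pool.Agent.Helper35.MC.Ob

/-!
MP_4042d8_co: the mirror of a colouring at a 3-hub, and property (T).
-/

set_option autoImplicit false
set_option linter.unusedSectionVars false
set_option linter.unusedSimpArgs false
set_option linter.unusedVariables false

namespace Pool.Agent.Helper9.MC

open Pool.Agent.Helper27.MC Pool.Agent.Helper51.MC Pool.Agent.Helper88.MC Pool.Agent.Helper64.MC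
open Pool.Agent.Helper35.MC Pool.Agent.Helper91.MC

variable {V : Type} [Fintype V] [DecidableEq V] {G : SimpleGraph V} [DecidableRel G.Adj]

/-- the mirror at a 3-hub -/
def mir (c : V → Bool) (a s1 s2 s3 : V) : V → Bool := fun v => !(flp c {a, s1, s2, s3} v)

section

variable {c : V → Bool} {a s1 s2 s3 v1 v2 v3 p1 p2 p3 : V}

theorem hub_p12 (H : Hub3 G c a s1 s2 s3 v1 v2 v3 p1 p2 p3) :
    Hub3 G c a s2 s1 s3 v2 v1 v3 p2 p1 p3 := by
  obtain ⟨⟨ca, cs1, cs2, cs3, ⟨na, ns12, ns13, ns23⟩⟩, h1, h2, h3, m12, m13, m23⟩ := H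
  exact ⟨⟨ca, cs2, cs1, cs3, ⟨fun w => by rw [na]; tauto, ns12.symm, ns23, ns13⟩⟩, h2, h1, h3,
    fun h => m12 h.symm, m23, m13⟩

theorem hub_p23 (H : Hub3 G c a s1 s2 s3 v1 v2 v3 p1 p2 p3) :
    Hub3 G c a s1 s3 s2 v1 v3 v2 p1 p3 p2 := by
  obtain ⟨⟨ca, cs1, cs2, cs3, ⟨na, ns12, ns13, ns23⟩⟩, h1, h2, h3, m12, m13, m23⟩ := H
  exact ⟨⟨ca, cs1, cs3, cs2, ⟨fun w => by rw [na]; tauto, ns13, ns12, ns23.symm⟩⟩, h1, h3, h2,
    m13, m12, fun h => m23 h.symm⟩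

theorem mir_rm (x y : V) : Rm G (mir c a s1 s2 s3) x y ↔ Rm G (flp c {a, s1, s2, s3}) x y := by
  unfold Rm mir
  simp

theorem mir_mu (v : V) : mu G (mir c a s1 s2 s3) v = mu G (flp c {a, s1, s2, s3}) v := by
  unfold mu mir
  simp

theorem mir_in {w : V} (h : w = a ∨ w = s1 ∨ w = s2 ∨ w = s3) : mir c a s1 s2 s3 w = c w := by
  unfold mir
  rw [flp_in (by simpa using h)]
  simp

theorem mir_out {w : V} (h : ¬ (w = a ∨ w = s1 ∨ w = s2 ∨ w = s3)) :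
    mir c a s1 s2 s3 w = !(c w) := by
  unfold mir
  rw [flp_not (by simpa using h)]

theorem mir_hub (H : Hub3 G c a s1 s2 s3 v1 v2 v3 p1 p2 p3) :
    Hub3 G (mir c a s1 s2 s3) a s1 s2 s3 p1 p2 p3 v1 v2 v3 := by
  have hc := H
  obtain ⟨⟨ca, cs1, cs2, cs3, ⟨na, ns12, ns13, ns23⟩⟩, ⟨-, cv1, -, cp1, ⟨n1, e11, e12, e13⟩⟩,
    ⟨-, cv2, -, cp2, ⟨n2, e21, e22, e23⟩⟩, ⟨-, cv3, -, cp3, ⟨n3, e31, e32, e33⟩⟩, m12, m13, m23⟩ := H
  have r1 := sv_rm hc.h1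
  have r2 := sv_rm hc.h2
  have r3 := sv_rm hc.h3
  have hRm : ∀ x y, Rm G c x y ↔ (G.Adj x y ∧ c y = c x) := fun _ _ => Iff.rfl
  have ia : mir c a s1 s2 s3 a = true := by rw [mir_in (by simp), ca]
  have i1 : mir c a s1 s2 s3 s1 = false := by rw [mir_in (by simp), cs1]
  have i2 : mir c a s1 s2 s3 s2 = false := by rw [mir_in (by simp), cs2]
  have i3 : mir c a s1 s2 s3 s3 = false := by rw [mir_in (by simp), cs3]
  have ip1 : mir c a s1 s2 s3 p1 = false := by rw [mir_out (by grind), cp1]; rfl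
  have ip2 : mir c a s1 s2 s3 p2 = false := by rw [mir_out (by grind), cp2]; rfl
  have ip3 : mir c a s1 s2 s3 p3 = false := by rw [mir_out (by grind), cp3]; rfl
  have iv1 : mir c a s1 s2 s3 v1 = true := by
    rw [mir_out, cv1]
    · rfl
    · rintro (h | h | h | h)
      · exact e11 h
      · exact r1.ne h.symm
      · exact m12 (h ▸ r1)
      · exact m13 (h ▸ r1)
  have iv2 : mir c a s1 s2 s3 v2 = true := by
    rw [mir_out, cv2]
    · rfl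
    · rintro (h | h | h | h)
      · exact e21 h
      · exact m12 (h ▸ r2).symm
      · exact r2.ne h.symm
      · exact m23 (h ▸ r2)
  have iv3 : mir c a s1 s2 s3 v3 = true := by
    rw [mir_out, cv3]
    · rfl
    · rintro (h | h | h | h)
      · exact e31 h
      · exact m13 (h ▸ r3).symm
      · exact m23 (h ▸ r3).symm
      · exact r3.ne h.symm
  have nr : ∀ x y, c x = c y → mir c a s1 s2 s3 x = mir c a s1 s2 s3 y → ¬ Rm G c x y →
      ¬ Rm G (mir c a s1 s2 s3) x y := fun x y h1 h2 h3 h4 => h3 ⟨h4.1, h1.symm⟩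
  exact ⟨⟨ia, i1, i2, i3, ⟨na, ns12, ns13, ns23⟩⟩,
    ⟨i1, ip1, ia, iv1, ⟨fun w => (n1 w).trans ⟨fun h => by rcases h with h | h | h <;> simp [h], fun h => by rcases h with h | h | h <;> simp [h]⟩, e13.symm, e12.symm, e11.symm⟩⟩,
    ⟨i2, ip2, ia, iv2, ⟨fun w => (n2 w).trans ⟨fun h => by rcases h with h | h | h <;> simp [h], fun h => by rcases h with h | h | h <;> simp [h]⟩, e23.symm, e22.symm, e21.symm⟩⟩,
    ⟨i3, ip3, ia, iv3, ⟨fun w => (n3 w).trans ⟨fun h => by rcases h with h | h | h <;> simp [h], fun h => by rcases h with h | h | h <;> simp [h]⟩, e33.symm, e32.symm, e31.symm⟩⟩,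
    nr _ _ (by rw [cs1, cs2]) (by rw [i1, i2]) m12, nr _ _ (by rw [cs1, cs3]) (by rw [i1, i3]) m13,
    nr _ _ (by rw [cs2, cs3]) (by rw [i2, i3]) m23⟩

/-- a vertex which has no neighbour in the hub set -/
def Far (a s1 s2 s3 v1 v2 v3 p1 p2 p3 w : V) : Prop :=
  w ≠ a ∧ w ≠ s1 ∧ w ≠ s2 ∧ w ≠ s3 ∧ w ≠ v1 ∧ w ≠ v2 ∧ w ≠ v3 ∧ w ≠ p1 ∧ w ≠ p2 ∧ w ≠ p3

theorem far_adj (H : Hub3 G c a s1 s2 s3 v1 v2 v3 p1 p2 p3) {w : V}
    (hw : Far a s1 s2 s3 v1 v2 v3 p1 p2 p3 w) {y : V} (h : G.Adj w y) :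
    ¬ (y = a ∨ y = s1 ∨ y = s2 ∨ y = s3) := by
  obtain ⟨w1, w2, w3, w4, w5, w6, w7, w8, w9, w10⟩ := hw
  have na := H.av.n3.nb w
  have n1 := H.h1.n3.nb w
  have n2 := H.h2.n3.nb w
  have n3 := H.h3.n3.nb w
  rintro (rfl | rfl | rfl | rfl)
  · rcases na.1 h.symm with h | h | h
    exacts [w2 h, w3 h, w4 h]
  · rcases n1.1 h.symm with h | h | h
    exacts [w5 h, w1 h, w8 h]
  · rcases n2.1 h.symm with h | h | h
    exacts [w6 h, w1 h, w9 h]
  · rcases n3.1 h.symm with h | h | h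
    exacts [w7 h, w1 h, w10 h]

theorem far_mir (H : Hub3 G c a s1 s2 s3 v1 v2 v3 p1 p2 p3) {w : V}
    (hw : Far a s1 s2 s3 v1 v2 v3 p1 p2 p3 w) : mir c a s1 s2 s3 w = !(c w) :=
  mir_out (by
    obtain ⟨w1, w2, w3, w4, -⟩ := hw
    rintro (h | h | h | h)
    exacts [w1 h, w2 h, w3 h, w4 h])

theorem far_rm (H : Hub3 G c a s1 s2 s3 v1 v2 v3 p1 p2 p3) {w : V}
    (hw : Far a s1 s2 s3 v1 v2 v3 p1 p2 p3 w) (y : V) :
    Rm G (mir c a s1 s2 s3) w y ↔ Rm G c w y := by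
  unfold Rm
  refine and_congr_right fun h => ?_
  rw [far_mir H hw, mir_out (far_adj H hw h)]
  simp

theorem far_mu (H : Hub3 G c a s1 s2 s3 v1 v2 v3 p1 p2 p3) {w : V}
    (hw : Far a s1 s2 s3 v1 v2 v3 p1 p2 p3 w) : mu G (mir c a s1 s2 s3) w = mu G c w := by
  unfold mu
  congr 1
  ext y
  have := far_rm H hw y
  unfold Rm at this
  simpa using this

end

end Pool.Agent.Helper9.MC
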