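import Pool.Agent.Helper9.MC.Cls

/-!
MP_4042d8_co: types of the vertices in the mirror of a 3-hub; property (T).
-/

set_option autoImplicit false
set_option linter.unusedSectionVars false
set_option linter.unusedSimpArgs false
set_option linter.unusedVariables false

namespace Pool.Agent.Helper9.MC

open Pool.Agent.Helper27.MC Pool.Agent.Helper51.MC Pool.Agent.Helper88.MC Pool.Agent.Helper64.MC
open Pool.Agent.Helper35.MC Pool.Agent.Helper91.MC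

variable {V : Type} [Fintype V] [DecidableEq V] {G : SimpleGraph V} [DecidableRel G.Adj]

section

variable {c : V → Bool} {a s1 s2 s3 v1 v2 v3 p1 p2 p3 : V}

/-- the mirror is optimal -/
theorem mir_opt (hH : ST_H3) (hG : G.IsRegularOfDegree 3) (hO : Opt G c 1)
    (H : Hub3 G c a s1 s2 s3 v1 v2 v3 p1 p2 p3) : Opt G (mir c a s1 s2 s3) 1 :=
  Pool.Agent.Helper20.MC.SW_of Pool.Agent.Helper42.MC.ZERO hH V G hG c hO a s1 s2 s3 v1 v2 v3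
    p1 p2 p3 H

theorem far_Q (H : Hub3 G c a s1 s2 s3 v1 v2 v3 p1 p2 p3) (q1 : tA G c p1) (q2 : tA G c p2)
    (q3 : tA G c p3) {w : V} (h : tQ G c w) : Far a s1 s2 s3 v1 v2 v3 p1 p2 p3 w := by
  have na := av_mu H.av
  obtain ⟨cw, mw⟩ := h
  have k1 : ∀ x, c x = false → w ≠ x := by
    rintro x hx rfl
    rw [hx] at cw
    cases cw
  have k2 : ∀ x, mu G c x = 0 → w ≠ x := by
    rintro x hx rfl
    omega
  exact ⟨k2 _ na, k1 _ H.h1.cs, k1 _ H.h2.cs, k1 _ H.h3.cs, k1 _ H.h1.cm, k1 _ H.h2.cm,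
    k1 _ H.h3.cm, k2 _ q1.2, k2 _ q2.2, k2 _ q3.2⟩

theorem far_S (H : Hub3 G c a s1 s2 s3 v1 v2 v3 p1 p2 p3) {w : V} (h : tS G c w)
    (w1 : w ≠ s1) (w2 : w ≠ s2) (w3 : w ≠ s3) (x1 : w ≠ v1) (x2 : w ≠ v2) (x3 : w ≠ v3) :
    Far a s1 s2 s3 v1 v2 v3 p1 p2 p3 w := by
  obtain ⟨cw, mw⟩ := h
  have k1 : ∀ x, c x = true → w ≠ x := by
    rintro x hx rfl
    rw [hx] at cw
    cases cw
  exact ⟨k1 _ H.av.ca, w1, w2, w3, x1, x2, x3, k1 _ H.h1.cb, k1 _ H.h2.cb, k1 _ H.h3.cb⟩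

theorem far_B (hm : ∀ v, mu G c v ≤ 1) (H : Hub3 G c a s1 s2 s3 v1 v2 v3 p1 p2 p3) {w : V}
    (h : tB G c w) : Far a s1 s2 s3 v1 v2 v3 p1 p2 p3 w := by
  obtain ⟨cw, mw⟩ := h
  have k1 : ∀ x, c x = true → w ≠ x := by
    rintro x hx rfl
    rw [hx] at cw
    cases cw
  have k2 : ∀ x y, Rm G c x y → w ≠ x := by
    rintro x y hx rfl
    exact nomate mw y hx
  have r1 := sv_rm H.h1
  have r2 := sv_rm H.h2
  have r3 := sv_rm H.h3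
  exact ⟨k1 _ H.av.ca, k2 _ _ r1, k2 _ _ r2, k2 _ _ r3, k2 _ _ r1.symm, k2 _ _ r2.symm,
    k2 _ _ r3.symm, k1 _ H.h1.cb, k1 _ H.h2.cb, k1 _ H.h3.cb⟩

theorem far_A (H : Hub3 G c a s1 s2 s3 v1 v2 v3 p1 p2 p3) {w : V} (h : tA G c w)
    (wa : w ≠ a) (w1 : w ≠ p1) (w2 : w ≠ p2) (w3 : w ≠ p3) :
    Far a s1 s2 s3 v1 v2 v3 p1 p2 p3 w := by
  obtain ⟨cw, mw⟩ := h
  have k1 : ∀ x, c x = false → w ≠ x := by
    rintro x hx rfl
    rw [hx] at cw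
    cases cw
  exact ⟨wa, k1 _ H.h1.cs, k1 _ H.h2.cs, k1 _ H.h3.cs, k1 _ H.h1.cm, k1 _ H.h2.cm,
    k1 _ H.h3.cm, w1, w2, w3⟩

theorem far_ty (H : Hub3 G c a s1 s2 s3 v1 v2 v3 p1 p2 p3) {w : V}
    (hw : Far a s1 s2 s3 v1 v2 v3 p1 p2 p3 w) :
    (tS G (mir c a s1 s2 s3) w ↔ tQ G c w) ∧ (tQ G (mir c a s1 s2 s3) w ↔ tS G c w) ∧
    (tA G (mir c a s1 s2 s3) w ↔ tB G c w) ∧ (tB G (mir c a s1 s2 s3) w ↔ tA G c w) := by
  unfold tS tQ tA tB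
  rw [far_mu H hw, far_mir H hw]
  cases c w <;> simp

/-- a vertex is far, or in the list -/
theorem far_or (w : V) : Far a s1 s2 s3 v1 v2 v3 p1 p2 p3 w ∨ w = a ∨ w = s1 ∨ w = s2 ∨ w = s3 ∨
    w = v1 ∨ w = v2 ∨ w = v3 ∨ w = p1 ∨ w = p2 ∨ w = p3 := by
  by_cases h : Far a s1 s2 s3 v1 v2 v3 p1 p2 p3 w
  · exact Or.inl h
  · right
    by_contra h2
    push Not at h2
    exact h h2

/-- types in the mirror -/
theorem mir_Q (hH : ST_H3) (hG : G.IsRegularOfDegree 3) (hO : Opt G c 1)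
    (H : Hub3 G c a s1 s2 s3 v1 v2 v3 p1 p2 p3) {w : V} (h : tQ G (mir c a s1 s2 s3) w) :
    tS G c w ∧ Far a s1 s2 s3 v1 v2 v3 p1 p2 p3 w := by
  have H' := mir_hub H
  obtain ⟨⟨q1, q2, q3⟩, -⟩ := hH V G hG _ 1 le_rfl (mir_opt hH hG hO H) _ _ _ _ _ _ _ _ _ _ H'
  have f := far_Q H' q1 q2 q3 h
  have f' : Far a s1 s2 s3 v1 v2 v3 p1 p2 p3 w := by
    obtain ⟨w1, w2, w3, w4, w5, w6, w7, w8, w9, w10⟩ := f
    exact ⟨w1, w2, w3, w4, w8, w9, w10, w5, w6, w7⟩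
  exact ⟨(far_ty H f').2.1.1 h, f'⟩

theorem mir_A (hm : ∀ v, mu G c v ≤ 1) 
    (H : Hub3 G c a s1 s2 s3 v1 v2 v3 p1 p2 p3) {w : V} (h : tA G (mir c a s1 s2 s3) w) :
    tB G c w ∨ w = a ∨ w = v1 ∨ w = v2 ∨ w = v3 := by
  have H' := mir_hub H
  rcases far_or (a := a) (s1 := s1) (s2 := s2) (s3 := s3) (v1 := v1) (v2 := v2) (v3 := v3)
    (p1 := p1) (p2 := p2) (p3 := p3) w with f | f
  · exact Or.inl ((far_ty H f).2.2.1.1 h)
  · have k : ∀ x, mir c a s1 s2 s3 x = false → w ≠ x := by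
      rintro x hx rfl
      have := h.1
      rw [hx] at this
      cases this
    rcases f with f | f | f | f | f | f | f | f | f | f
    · exact Or.inr (Or.inl f)
    · exact absurd f (k _ H'.h1.cs)
    · exact absurd f (k _ H'.h2.cs)
    · exact absurd f (k _ H'.h3.cs)
    · exact Or.inr (Or.inr (Or.inl f))
    · exact Or.inr (Or.inr (Or.inr (Or.inl f)))
    · exact Or.inr (Or.inr (Or.inr (Or.inr f)))
    · exact absurd f (k _ H'.h1.cm)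
    · exact absurd f (k _ H'.h2.cm)
    · exact absurd f (k _ H'.h3.cm)

/-- property (T) -/
theorem hub_T (hH : ST_H3) (hG : G.IsRegularOfDegree 3) (hO : Opt G c 1)
    (H : Hub3 G c a s1 s2 s3 v1 v2 v3 p1 p2 p3) {x w w' : V} (hx : tS G c x)
    (x1 : x ≠ s1) (x2 : x ≠ s2) (x3 : x ≠ s3) (y1 : x ≠ v1) (y2 : x ≠ v2) (y3 : x ≠ v3)
    (h : G.Adj x w) (h' : G.Adj x w') (hw : tQ G c w)
    (hw' : tQ G c w' ∨ w' = p1 ∨ w' = p2 ∨ w' = p3) (hne : w ≠ w') : Rm G c w w' := by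
  have hm := hO.mu1
  have H' := mir_hub H
  have hO' := mir_opt hH hG hO H
  obtain ⟨⟨q1, q2, q3⟩, d12, d13, d23⟩ := hH V G hG c 1 le_rfl hO a s1 s2 s3 v1 v2 v3 p1 p2 p3 H
  have fx := far_S H hx x1 x2 x3 y1 y2 y3
  have fw := far_Q H q1 q2 q3 hw
  have tx := (far_ty H fx).2.1.2 hx
  have tw := (far_ty H fw).1.2 hw
  have tw' : tS G (mir c a s1 s2 s3) w' := by
    rcases hw' with h1 | h1 | h1 | h1
    · exact (far_ty H (far_Q H q1 q2 q3 h1)).1.2 h1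
    · rw [h1]
      exact sv_tSm hO'.mu1 H'.h1
    · rw [h1]
      exact sv_tSm hO'.mu1 H'.h2
    · rw [h1]
      exact sv_tSm hO'.mu1 H'.h3
  have h1 := F1 hG le_rfl hO' tx tw tw' h h' hne
  exact (far_rm H fw w').1 h1

end

end Pool.Agent.Helper9.MC
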